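import Mathlib

/-!
# Scalar differential inequalities used for the two-patch model
-/

set_option autoImplicit false

open Set Filter Topology

namespace Pool.Agent.Lib.MP_d8ef8f_an.TwoPatch

/-- If `f` starts above `c` and has positive right derivative whenever it touches `c`,
it stays above `c`. -/
theorem stay {f f' : ℝ → ℝ} {t0 c : ℝ} (hc : ContinuousOn f (Ici t0))
    (hd : ∀ t, t0 ≤ t → HasDerivWithinAt f (f' t) (Ici t) t)
    (h0 : c ≤ f t0) (h : ∀ t, t0 ≤ t → f t = c → 0 < f' t) :
    ∀ t, t0 ≤ t → c ≤ f t := by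
  intro t ht
  have key := image_le_of_deriv_right_lt_deriv_boundary (f := fun s => - f s)
    (f' := fun s => - f' s) (a := t0) (b := t)
    ((hc.mono Icc_subset_Ici_self).neg) (fun s hs => (hd s hs.1).neg)
    (B := fun _ => - c) (B' := fun _ => 0) (by simpa using h0)
    (fun s => hasDerivAt_const s _)
    (fun s hs he => by
      have : f s = c := by
        have : - f s = - c := he
        linarith
      have := h s hs.1 this
      simpa using this)
  have := key (x := t) ⟨ht, le_refl t⟩
  simpa using this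

/-- Monotonicity from a sign of the right derivative. -/
theorem le_of_right_deriv_nonneg {f f' : ℝ → ℝ} {t0 : ℝ} (hc : ContinuousOn f (Ici t0))
    (hd : ∀ t, t0 ≤ t → HasDerivWithinAt f (f' t) (Ici t) t)
    (h : ∀ t, t0 ≤ t → 0 ≤ f' t) :
    ∀ t, t0 ≤ t → f t0 ≤ f t := by
  intro t ht
  have key := image_le_of_deriv_right_le_deriv_boundary (f := fun s => - f s)
    (f' := fun s => - f' s) (a := t0) (b := t)
    ((hc.mono Icc_subset_Ici_self).neg) (fun s hs => (hd s hs.1).neg)
    (B := fun _ => - f t0) (B' := fun _ => 0) (le_refl _)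
    continuousOn_const
    (fun s _ => hasDerivWithinAt_const s _ _)
    (fun s hs => by
      have := h s hs.1
      simpa using this)
  have := key (x := t) ⟨ht, le_refl t⟩
  simpa using this

/-- Linear lower growth. -/
theorem linear_lower {f f' : ℝ → ℝ} {t0 c : ℝ} (hc : ContinuousOn f (Ici t0))
    (hd : ∀ t, t0 ≤ t → HasDerivWithinAt f (f' t) (Ici t) t)
    (h : ∀ t, t0 ≤ t → c ≤ f' t) :
    ∀ t, t0 ≤ t → f t0 + c * (t - t0) ≤ f t := by
  intro t ht
  have := le_of_right_deriv_nonneg (f := fun s => f s - c * (s - t0))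
    (f' := fun s => f' s - c) (t0 := t0)
    (hc.sub (by fun_prop))
    (fun s hs => by
      have h1 : HasDerivWithinAt (fun s : ℝ => c * (s - t0)) (c * 1) (Ici s) s :=
        (((hasDerivAt_id s).sub_const t0).const_mul c).hasDerivWithinAt
      have h2 := (hd s hs).sub h1
      rw [mul_one] at h2
      exact h2)
    (fun s hs => by
      have := h s hs
      linarith) t ht
  simp only [sub_self, mul_zero, sub_zero] at this
  linarith

/-- Linear lower growth up to a finite time. -/
theorem linear_lower_Icc {f f' : ℝ → ℝ} {t0 t1 c : ℝ} (hc : ContinuousOn f (Icc t0 t1))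
    (hd : ∀ t ∈ Ico t0 t1, HasDerivWithinAt f (f' t) (Ici t) t)
    (h : ∀ t ∈ Ico t0 t1, c ≤ f' t) :
    ∀ t ∈ Icc t0 t1, f t0 + c * (t - t0) ≤ f t := by
  intro t ht
  have key := image_le_of_deriv_right_le_deriv_boundary (f := fun s => - f s)
    (f' := fun s => - f' s) (a := t0) (b := t1)
    hc.neg (fun s hs => (hd s hs).neg)
    (B := fun s => - f t0 - c * (s - t0)) (B' := fun _ => - c) (by simp)
    (by fun_prop)
    (fun s _ => by
      have h1 : HasDerivWithinAt (fun s : ℝ => c * (s - t0)) (c * 1) (Ici s) s :=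
        (((hasDerivAt_id s).sub_const t0).const_mul c).hasDerivWithinAt
      simpa using h1.const_sub (- f t0))
    (fun s hs => by
      have := h s hs
      linarith)
  have := key ht
  linarith

/-- If the right derivative is at least `η > 0` whenever `f ≤ c`, then `f ≥ c` after the time
`max 0 ((c - f t0) / η)`. -/
theorem reach {f f' : ℝ → ℝ} {t0 c η : ℝ} (hη : 0 < η) (hc : ContinuousOn f (Ici t0))
    (hd : ∀ t, t0 ≤ t → HasDerivWithinAt f (f' t) (Ici t) t)
    (h : ∀ t, t0 ≤ t → f t ≤ c → η ≤ f' t) :
    ∀ t, t0 + max 0 ((c - f t0) / η) ≤ t → c ≤ f t := by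
  intro t ht
  have ht0 : t0 ≤ t := by
    have := le_max_left 0 ((c - f t0) / η)
    linarith
  by_contra hcon
  push Not at hcon
  -- then f < c on the whole interval [t0, t]
  have hall : ∀ s ∈ Icc t0 t, f s < c := by
    intro s hs
    by_contra hs'
    push Not at hs'
    have := stay (f := f) (f' := f') (t0 := s) (c := c)
      (hc.mono (Ici_subset_Ici.mpr hs.1)) (fun r hr => hd r (hs.1.trans hr)) hs'
      (fun r hr he => lt_of_lt_of_le hη (h r (hs.1.trans hr) he.le)) t hs.2
    linarith
  have h1 := linear_lower_Icc (f := f) (f' := f') (t0 := t0) (t1 := t) (c := η)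
    (hc.mono Icc_subset_Ici_self) (fun s hs => hd s hs.1)
    (fun s hs => h s hs.1 (hall s ⟨hs.1, hs.2.le⟩).le) t ⟨ht0, le_refl t⟩
  have h2 : (c - f t0) / η ≤ t - t0 := by
    have := le_max_right 0 ((c - f t0) / η)
    linarith
  have h3 : c - f t0 ≤ (t - t0) * η := by
    rwa [div_le_iff₀ hη] at h2
  nlinarith [hall t ⟨ht0, le_refl t⟩]

/-- A version with a uniform time. -/
theorem reach_uniform {f f' : ℝ → ℝ} {t0 c η A : ℝ} (hη : 0 < η) (hc : ContinuousOn f (Ici t0))
    (hd : ∀ t, t0 ≤ t → HasDerivWithinAt f (f' t) (Ici t) t)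
    (h : ∀ t, t0 ≤ t → f t ≤ c → η ≤ f' t) (hA : c - A ≤ f t0) (hA0 : 0 ≤ A) :
    ∀ t, t0 + A / η ≤ t → c ≤ f t := by
  intro t ht
  apply reach hη hc hd h t
  have : max 0 ((c - f t0) / η) ≤ A / η := by
    apply max_le
    · positivity
    · apply div_le_div_of_nonneg_right _ hη.le
      linarith
  linarith

/-- Exponential lower bound. -/
theorem exp_lower {f f' : ℝ → ℝ} {t0 k : ℝ} (hc : ContinuousOn f (Ici t0))
    (hd : ∀ t, t0 ≤ t → HasDerivWithinAt f (f' t) (Ici t) t)
    (h : ∀ t, t0 ≤ t → k * f t ≤ f' t) :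
    ∀ t, t0 ≤ t → f t0 * Real.exp (k * (t - t0)) ≤ f t := by
  intro t ht
  have h1 : ∀ s : ℝ, HasDerivAt (fun r : ℝ => Real.exp (- (k * (r - t0))))
      (Real.exp (- (k * (s - t0))) * (- (k * 1))) s := by
    intro s
    have := ((((hasDerivAt_id s).sub_const t0).const_mul k).neg).exp
    simpa using this
  have := le_of_right_deriv_nonneg (f := fun s => f s * Real.exp (- (k * (s - t0))))
    (f' := fun s => f' s * Real.exp (- (k * (s - t0))) +
      f s * (Real.exp (- (k * (s - t0))) * (- (k * 1)))) (t0 := t0)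
    (hc.mul (by fun_prop))
    (fun s hs => (hd s hs).mul (h1 s).hasDerivWithinAt)
    (fun s hs => by
      have h2 := h s hs
      have h3 := Real.exp_pos (- (k * (s - t0)))
      have : f' s * Real.exp (- (k * (s - t0))) +
        f s * (Real.exp (- (k * (s - t0))) * (- (k * 1))) =
        (f' s - k * f s) * Real.exp (- (k * (s - t0))) := by ring
      rw [this]
      apply mul_nonneg _ h3.le
      linarith) t ht
  simp only [sub_self, mul_zero, neg_zero, Real.exp_zero, mul_one] at this
  have h4 : f t * Real.exp (- (k * (t - t0))) * Real.exp (k * (t - t0)) = f t := by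
    rw [mul_assoc, ← Real.exp_add]
    simp
  calc f t0 * Real.exp (k * (t - t0))
      ≤ f t * Real.exp (- (k * (t - t0))) * Real.exp (k * (t - t0)) :=
        mul_le_mul_of_nonneg_right this (Real.exp_pos _).le
    _ = f t := h4

/-- Exponential upper bound. -/
theorem exp_upper {f f' : ℝ → ℝ} {t0 k : ℝ} (hc : ContinuousOn f (Ici t0))
    (hd : ∀ t, t0 ≤ t → HasDerivWithinAt f (f' t) (Ici t) t)
    (h : ∀ t, t0 ≤ t → f' t ≤ k * f t) :
    ∀ t, t0 ≤ t → f t ≤ f t0 * Real.exp (k * (t - t0)) := by
  intro t ht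
  have := exp_lower (f := fun s => - f s) (f' := fun s => - f' s) (t0 := t0) (k := k)
    hc.neg (fun s hs => (hd s hs).neg)
    (fun s hs => by
      have := h s hs
      linarith) t ht
  linarith

/-- Affine upper bound: `f' ≤ - k f + e` gives `f ≤ f t0 * exp (-k (t - t0)) + e / k`. -/
theorem affine_upper {f f' : ℝ → ℝ} {t0 k e : ℝ} (hk : 0 < k) (he : 0 ≤ e)
    (hc : ContinuousOn f (Ici t0))
    (hd : ∀ t, t0 ≤ t → HasDerivWithinAt f (f' t) (Ici t) t)
    (h : ∀ t, t0 ≤ t → f' t ≤ - k * f t + e) :
    ∀ t, t0 ≤ t → f t ≤ |f t0| * Real.exp (- k * (t - t0)) + e / k := by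
  intro t ht
  have := exp_upper (f := fun s => f s - e / k) (f' := f') (t0 := t0) (k := - k)
    (hc.sub continuousOn_const) (fun s hs => by simpa using (hd s hs).sub_const (e / k))
    (fun s hs => by
      have := h s hs
      have h2 : k * (e / k) = e := by field_simp
      nlinarith) t ht
  have h1 : (f t0 - e / k) * Real.exp (- k * (t - t0)) ≤ |f t0| * Real.exp (- k * (t - t0)) := by
    apply mul_le_mul_of_nonneg_right _ (Real.exp_pos _).le
    have : 0 ≤ e / k := by positivity
    have := le_abs_self (f t0)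
    linarith
  linarith

/-- The negative part of a differentiable function has a right derivative. -/
theorem npart_deriv {z : ℝ → ℝ} {z' t : ℝ} (h : HasDerivWithinAt z z' (Ici t) t) :
    ∃ n : ℝ, (n = 0 ∨ n = 1) ∧ (n = 1 → z t ≤ 0) ∧ (n = 0 → 0 ≤ z t) ∧
      HasDerivWithinAt (fun s => max (- z s) 0) (- n * z') (Ici t) t ∧
      max (- z t) 0 = - n * z t := by
  rcases lt_trichotomy (z t) 0 with hz | hz | hz
  · refine ⟨1, Or.inr rfl, fun _ => hz.le, fun h => by norm_num at h, ?_, ?_⟩
    · have h1 : HasDerivWithinAt (fun s => - z s) (- z') (Ici t) t := h.neg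
      have hev : (fun s => max (- z s) 0) =ᶠ[𝓝[Ici t] t] fun s => - z s := by
        have := h.continuousWithinAt.eventually (gt_mem_nhds hz)
        filter_upwards [this] with s hs
        exact max_eq_left (by linarith)
      have := h1.congr_of_eventuallyEq hev (max_eq_left (by linarith))
      simpa using this
    · rw [max_eq_left (by linarith)]
      ring
  · have hkey : HasDerivWithinAt (fun s => max (- z s) 0) (max (- z') 0) (Ici t) t := by
      rw [hasDerivWithinAt_iff_tendsto_slope] at h ⊢
      have h2 : Tendsto (fun s => max (- slope z t s) 0) (𝓝[Ici t \ {t}] t)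
          (𝓝 (max (- z') 0)) := (h.neg).max tendsto_const_nhds
      refine Tendsto.congr' ?_ h2
      filter_upwards [self_mem_nhdsWithin] with s hs
      have hs1 : t ≤ s := hs.1
      have hs2 : s ≠ t := hs.2
      have hs3 : 0 < s - t := by
        have := lt_of_le_of_ne hs1 (Ne.symm hs2)
        linarith
      simp only [slope_def_field, hz, sub_zero, neg_zero, max_self]
      rw [← max_div_div_right hs3.le, zero_div, neg_div]
    by_cases hz' : z' < 0
    · refine ⟨1, Or.inr rfl, fun _ => hz.le, fun h => by norm_num at h, ?_, by simp [hz]⟩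
      rw [max_eq_left (by linarith)] at hkey
      simpa using hkey
    · push Not at hz'
      refine ⟨0, Or.inl rfl, fun h => by norm_num at h, fun _ => hz.ge, ?_, by simp [hz]⟩
      rw [max_eq_right (by linarith)] at hkey
      simpa using hkey
  · refine ⟨0, Or.inl rfl, fun h => by norm_num at h, fun _ => hz.le, ?_, ?_⟩
    · have hev : (fun s => max (- z s) 0) =ᶠ[𝓝[Ici t] t] fun _ => (0:ℝ) := by
        have := h.continuousWithinAt.eventually (lt_mem_nhds hz)
        filter_upwards [this] with s hs
        exact max_eq_right (by linarith)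
      have := (hasDerivWithinAt_const t (Ici t) (0:ℝ)).congr_of_eventuallyEq hev
        (max_eq_right (by linarith))
      simpa using this
    · rw [max_eq_right (by linarith)]
      ring

end Pool.Agent.Lib.MP_d8ef8f_an.TwoPatch
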