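import Pool.Agent.Lib.MP_d8ef8f_an.TwoPatch.Flow

/-!
# The hidden Markov chain of the two-patch system
-/

set_option autoImplicit false

open Set Filter Topology Finset

namespace Pool.Agent.Lib.MP_d8ef8f_an.TwoPatch

/-- The dissipation of the negative part of a signed measure transported by the chain. -/
theorem markov_alg {N : ℕ} {x y n d : Fin N → ℝ} {al be d0 c r κ p B nP nB : ℝ}
    (hx : ∀ i, 0 ≤ x i) (hy : ∀ i, 0 ≤ y i)
    (hn : ∀ i, n i = 0 ∨ n i = 1) (hn1 : ∀ i, n i = 1 → y i - x i ≤ 0)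
    (hn0 : ∀ i, n i = 0 → 0 ≤ y i - x i)
    (hP : nP = 0 ∨ nP = 1) (hP1 : nP = 1 → p ≤ 0) (hP0 : nP = 0 → 0 ≤ p)
    (hB : nB = 0 ∨ nB = 1) (hB1 : nB = 1 → B ≤ 0) (hB0 : nB = 0 → 0 ≤ B)
    (hd : ∀ i, d0 ≤ d i) (hal : 0 < al) (hbe : 0 < be)
    (hr0 : 0 < r) (hr1 : r ≤ 1) (hrat : ∀ i, r * x i ≤ y i)
    (hX : c ≤ ∑ i, x i) (hY : c ≤ ∑ i, y i) (hc : 0 < c)
    (htot : 0 ≤ p + B + ∑ i, (y i - x i))
    (hκ : 0 < κ) (hκ1 : κ ≤ r * c / 2) (hκ2 : κ ≤ al * d0) (hκ3 : κ ≤ be * d0) :
    ∑ i, ((nP - n i) * (x i * p - al * d i * (y i - x i)) +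
      (nB - n i) * (y i * B - be * d i * (y i - x i))) ≤
      - κ * (- nP * p + - nB * B + ∑ i, (- n i * (y i - x i))) := by
  have hκ4 : κ ≤ c / 2 := by nlinarith
  have ha : ∀ i, κ ≤ al * d i := fun i => hκ2.trans (mul_le_mul_of_nonneg_left (hd i) hal.le)
  have hb : ∀ i, κ ≤ be * d i := fun i => hκ3.trans (mul_le_mul_of_nonneg_left (hd i) hbe.le)
  set Xp := ∑ i, (1 - n i) * x i with hXp
  set Xm := ∑ i, n i * x i with hXm
  set Yp := ∑ i, (1 - n i) * y i with hYp
  set Ym := ∑ i, n i * y i with hYm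
  set Dp := ∑ i, (1 - n i) * (y i - x i) with hDp
  set Dm := ∑ i, n i * (y i - x i) with hDm
  have hXs : Xp + Xm = ∑ i, x i := by
    rw [hXp, hXm, ← Finset.sum_add_distrib]
    exact Finset.sum_congr rfl fun i _ => by ring
  have hYs : Yp + Ym = ∑ i, y i := by
    rw [hYp, hYm, ← Finset.sum_add_distrib]
    exact Finset.sum_congr rfl fun i _ => by ring
  have hDs : Dp + Dm = ∑ i, (y i - x i) := by
    rw [hDp, hDm, ← Finset.sum_add_distrib]
    exact Finset.sum_congr rfl fun i _ => by ring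
  have hDm' : ∑ i, (- n i * (y i - x i)) = - Dm := by
    rw [hDm, ← Finset.sum_neg_distrib]
    exact Finset.sum_congr rfl fun i _ => by ring
  have hDp0 : 0 ≤ Dp := Finset.sum_nonneg fun i _ => by
    rcases hn i with h | h
    · rw [h]
      have := hn0 i h
      linarith
    · rw [h]
      simp
  have hDm0 : Dm ≤ 0 := Finset.sum_nonpos fun i _ => by
    rcases hn i with h | h
    · rw [h]
      simp
    · rw [h]
      have := hn1 i h
      linarith
  have hXp0 : 0 ≤ Xp := Finset.sum_nonneg fun i _ => by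
    rcases hn i with h | h <;> rw [h] <;> have := hx i <;> simp [this]
  have hXm0 : 0 ≤ Xm := Finset.sum_nonneg fun i _ => by
    rcases hn i with h | h <;> rw [h] <;> have := hx i <;> simp [this]
  have hYp0 : 0 ≤ Yp := Finset.sum_nonneg fun i _ => by
    rcases hn i with h | h <;> rw [h] <;> have := hy i <;> simp [this]
  have hYm0 : 0 ≤ Ym := Finset.sum_nonneg fun i _ => by
    rcases hn i with h | h <;> rw [h] <;> have := hy i <;> simp [this]
  have hYX : r * Xm ≤ Ym := by
    rw [hXm, hYm, Finset.mul_sum]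
    apply Finset.sum_le_sum
    intro i _
    rcases hn i with h | h
    · rw [h]
      simp
    · rw [h]
      have := hrat i
      linarith
  have hXY : Ym ≤ Xm := by
    have : Ym - Xm = Dm := by
      rw [hXm, hYm, hDm, ← Finset.sum_sub_distrib]
      exact Finset.sum_congr rfl fun i _ => by ring
    linarith
  rw [hDm']
  -- a common bound of the sum
  have hsum : ∑ i, ((nP - n i) * (x i * p - al * d i * (y i - x i)) +
      (nB - n i) * (y i * B - be * d i * (y i - x i))) ≤
      ∑ i, ((nP * ((1 - n i) * x i) * p - (1 - nP) * (n i * x i) * p) +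
        (nB * ((1 - n i) * y i) * B - (1 - nB) * (n i * y i) * B) +
        κ * (- (nP * ((1 - n i) * (y i - x i))) + (1 - nP) * (n i * (y i - x i)) -
          nB * ((1 - n i) * (y i - x i)) + (1 - nB) * (n i * (y i - x i)))) := by
    apply Finset.sum_le_sum
    intro i _
    have h1 := ha i
    have h2 := hb i
    rcases hP with h | h <;> rcases hB with h' | h' <;> rcases hn i with h'' | h'' <;>
      simp only [h, h', h'']
    · simp
    · have := hn1 i h''
      nlinarith
    · have := hn0 i h''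
      nlinarith
    · have := hn1 i h''
      nlinarith
    · have := hn0 i h''
      nlinarith
    · have := hn1 i h''
      nlinarith
    · have := hn0 i h''
      nlinarith
    · simp
  refine hsum.trans ?_
  have hexp : ∑ i, ((nP * ((1 - n i) * x i) * p - (1 - nP) * (n i * x i) * p) +
        (nB * ((1 - n i) * y i) * B - (1 - nB) * (n i * y i) * B) +
        κ * (- (nP * ((1 - n i) * (y i - x i))) + (1 - nP) * (n i * (y i - x i)) -
          nB * ((1 - n i) * (y i - x i)) + (1 - nB) * (n i * (y i - x i)))) =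
      (nP * Xp * p - (1 - nP) * Xm * p) + (nB * Yp * B - (1 - nB) * Ym * B) +
        κ * (- (nP * Dp) + (1 - nP) * Dm - nB * Dp + (1 - nB) * Dm) := by
    simp only [Finset.sum_add_distrib, Finset.sum_sub_distrib, ← Finset.mul_sum,
      ← Finset.sum_mul, Finset.sum_neg_distrib, hXp, hXm, hYp, hYm, hDp, hDm]
  rw [hexp]
  rcases hP with h | h <;> rcases hB with h' | h'
  · -- p, B nonneg
    have h1 := hP0 h
    have h2 := hB0 h'
    simp only [h, h']
    nlinarith [mul_nonneg hXm0 h1, mul_nonneg hYm0 h2, mul_nonneg hκ.le (neg_nonneg.mpr hDm0)]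
  · -- p ≥ 0 ≥ B
    have h1 := hP0 h
    have h2 := hB1 h'
    simp only [h, h']
    rcases le_total (c / 2) Yp with h3 | h3
    · have h4 : κ ≤ Yp := hκ4.trans h3
      nlinarith [mul_nonneg hXm0 h1, mul_nonneg (sub_nonneg.mpr h4) (neg_nonneg.mpr h2),
        mul_nonneg hκ.le hDp0]
    · have h4 : κ ≤ Xm := by
        have : c / 2 ≤ Ym := by linarith
        linarith
      have h5 : 0 ≤ κ * (p + B + (Dp + Dm)) := mul_nonneg hκ.le (by rw [hDs]; exact htot)
      nlinarith [mul_nonneg (sub_nonneg.mpr h4) h1, mul_nonneg hYp0 (neg_nonneg.mpr h2),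
        mul_nonneg hκ.le hDp0, mul_nonneg hκ.le (neg_nonneg.mpr hDm0)]
  · -- p ≤ 0 ≤ B
    have h1 := hP1 h
    have h2 := hB0 h'
    simp only [h, h']
    rcases le_total (c / 2) Xp with h3 | h3
    · have h4 : κ ≤ Xp := hκ4.trans h3
      nlinarith [mul_nonneg hYm0 h2, mul_nonneg (sub_nonneg.mpr h4) (neg_nonneg.mpr h1),
        mul_nonneg hκ.le hDp0]
    · have h4 : κ ≤ Ym := by
        have : c / 2 ≤ Xm := by linarith
        have : r * (c / 2) ≤ r * Xm := mul_le_mul_of_nonneg_left this hr0.le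
        linarith
      have h5 : 0 ≤ κ * (p + B + (Dp + Dm)) := mul_nonneg hκ.le (by rw [hDs]; exact htot)
      nlinarith [mul_nonneg (sub_nonneg.mpr h4) h2, mul_nonneg hXp0 (neg_nonneg.mpr h1),
        mul_nonneg hκ.le hDp0, mul_nonneg hκ.le (neg_nonneg.mpr hDm0)]
  · -- p, B nonpos
    have h1 := hP1 h
    have h2 := hB1 h'
    simp only [h, h']
    have h5 : 0 ≤ κ * (p + B + (Dp + Dm)) := mul_nonneg hκ.le (by rw [hDs]; exact htot)
    nlinarith [mul_nonneg hXp0 (neg_nonneg.mpr h1), mul_nonneg hYp0 (neg_nonneg.mpr h2),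
      mul_nonneg hκ.le hDp0]

/-- The negative part of the signed measure. -/
noncomputable def vm {N : ℕ} (P : Par N) (x y : Fin N → ℝ → ℝ) (t : ℝ) : ℝ :=
  max (- (tX x t - P.a)) 0 + max (- (P.b - tX y t)) 0 + ∑ i, max (- (y i t - x i t)) 0

theorem vm_nonneg {N : ℕ} (P : Par N) (x y : Fin N → ℝ → ℝ) (t : ℝ) : 0 ≤ vm P x y t := by
  unfold vm
  have : 0 ≤ ∑ i, max (- (y i t - x i t)) 0 :=
    Finset.sum_nonneg fun i _ => le_max_right _ _
  have h1 := le_max_right (- (tX x t - P.a)) 0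
  have h2 := le_max_right (- (P.b - tX y t)) 0
  linarith

variable {N : ℕ} {P : Par N} {t0 : ℝ} {x y : Fin N → ℝ → ℝ}

theorem Flow.vmc (h : Flow P t0 x y) : ContinuousOn (vm P x y) (Ici t0) := by
  unfold vm
  refine ContinuousOn.add (ContinuousOn.add ?_ ?_) ?_
  · exact ((h.tXc.sub continuousOn_const).neg).sup continuousOn_const
  · exact ((continuousOn_const.sub h.tYc).neg).sup continuousOn_const
  · refine continuousOn_finsetSum _ fun i _ => ?_
    exact (((h.yc i).sub (h.xc i)).neg).sup continuousOn_const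

/-- The negative part decays exponentially. -/
theorem Flow.vm_decay (h : Flow P t0 x y) (hP : P.Ok) {d0 c r κ : ℝ}
    (hd : ∀ i, d0 ≤ P.d i) (hr0 : 0 < r) (hr1 : r ≤ 1)
    (hrat : ∀ i t, t0 ≤ t → r * x i t ≤ y i t)
    (hX : ∀ t, t0 ≤ t → c ≤ tX x t) (hY : ∀ t, t0 ≤ t → c ≤ tX y t) (hc : 0 < c)
    (hκ : 0 < κ) (hκ1 : κ ≤ r * c / 2) (hκ2 : κ ≤ P.al * d0) (hκ3 : κ ≤ P.be * d0) :
    ∀ t, t0 ≤ t → vm P x y t ≤ vm P x y t0 * Real.exp (- κ * (t - t0)) := by
  have key : ∀ t, t0 ≤ t → ∃ v' : ℝ, HasDerivWithinAt (vm P x y) v' (Ici t) t ∧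
      v' ≤ - κ * vm P x y t := by
    intro t ht
    have hdP : HasDerivWithinAt (fun s => tX x s - P.a)
        (P.al * (∑ i, P.d i * (y i t - x i t)) + tX x t * (P.a - tX x t)) (Ici t) t := by
      simpa using (h.tXd ht).sub_const P.a
    have hdB : HasDerivWithinAt (fun s => P.b - tX y s)
        (- (- P.be * (∑ i, P.d i * (y i t - x i t)) + tX y t * (P.b - tX y t))) (Ici t) t := by
      simpa using (h.tYd ht).const_sub P.b
    obtain ⟨nP, hP', hP1, hP0, hPd, hPe⟩ := npart_deriv hdP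
    obtain ⟨nB, hB', hB1, hB0, hBd, hBe⟩ := npart_deriv hdB
    have hex := fun i => npart_deriv (h.dd ht i)
    choose n hn hn1 hn0 hnd hne using hex
    have hsum := HasDerivWithinAt.fun_sum (u := Finset.univ) fun i (_ : i ∈ Finset.univ) => hnd i
    refine ⟨_, (hPd.add hBd).add hsum, ?_⟩
    have htot : 0 ≤ (tX x t - P.a) + (P.b - tX y t) + ∑ i, (y i t - x i t) := by
      rw [Finset.sum_sub_distrib]
      have := hP.ab
      simp only [tX]
      linarith
    have hmain := markov_alg (x := fun i => x i t) (y := fun i => y i t) (n := n) (d := P.d)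
      (al := P.al) (be := P.be) (d0 := d0) (c := c) (r := r) (κ := κ) (p := tX x t - P.a)
      (B := P.b - tX y t) (nP := nP) (nB := nB) (fun i => h.x0 i t ht) (fun i => h.y0 i t ht)
      hn hn1 hn0 hP' hP1 hP0 hB' hB1 hB0 hd hP.al hP.be hr0 hr1 (fun i => hrat i t ht)
      (hX t ht) (hY t ht) hc htot hκ hκ1 hκ2 hκ3
    have e1 : vm P x y t = - nP * (tX x t - P.a) + - nB * (P.b - tX y t) +
        ∑ i, (- n i * (y i t - x i t)) := by
      unfold vm
      rw [hPe, hBe]
      congr 1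
      exact Finset.sum_congr rfl fun i _ => hne i
    rw [e1]
    refine le_of_eq_of_le ?_ hmain
    have e2 : ∀ i, ((nP - n i) * (x i t * (tX x t - P.a) - P.al * P.d i * (y i t - x i t)) +
        (nB - n i) * (y i t * (P.b - tX y t) - P.be * P.d i * (y i t - x i t))) =
        nP * (tX x t - P.a) * x i t - nP * P.al * (P.d i * (y i t - x i t)) +
        nB * (P.b - tX y t) * y i t - nB * P.be * (P.d i * (y i t - x i t)) +
        - n i * (- (P.al + P.be) * P.d i * (y i t - x i t) + x i t * (tX x t - P.a) +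
          y i t * (P.b - tX y t)) := by
      intro i
      ring
    simp only [e2, Finset.sum_add_distrib, Finset.sum_sub_distrib, ← Finset.mul_sum]
    have e3 : ∑ i, x i t = tX x t := rfl
    have e4 : ∑ i, y i t = tX y t := rfl
    rw [e3, e4]
    ring
  intro t ht
  have hex : ∀ s : ℝ, ∃ v' : ℝ, t0 ≤ s → (HasDerivWithinAt (vm P x y) v' (Ici s) s ∧
      v' ≤ - κ * vm P x y s) := by
    intro s
    by_cases hs : t0 ≤ s
    · obtain ⟨v, hv⟩ := key s hs
      exact ⟨v, fun _ => hv⟩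
    · exact ⟨0, fun h => absurd h hs⟩
  choose v' hv' using hex
  exact exp_upper h.vmc (fun s hs => (hv' s hs).1) (fun s hs => (hv' s hs).2) t ht

end Pool.Agent.Lib.MP_d8ef8f_an.TwoPatch
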