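import Pool.Agent.Lib.MP_d8ef8f_an.TwoPatch.Ratio
import Pool.Agent.Lib.MP_d8ef8f_an.TwoPatch.Markov

/-!
# Uniform separation of the species
-/

set_option autoImplicit false

open Set Filter Topology Finset

namespace Pool.Agent.Lib.MP_d8ef8f_an.TwoPatch

noncomputable section

variable {N : ℕ} {P : Par N} {t0 : ℝ} {x y : Fin N → ℝ → ℝ}

theorem Flow.vm_le (h : Flow P t0 x y) {K t : ℝ} (ht : t0 ≤ t)
    (hX : tX x t ≤ K) (hY : tX y t ≤ K) : vm P x y t ≤ |P.a| + |P.b| + 3 * K := by
  have h1 := h.tX0 ht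
  have h2 := h.tY0 ht
  have h3 : max (- (tX x t - P.a)) 0 ≤ |P.a| := by
    apply max_le _ (abs_nonneg _)
    have := le_abs_self P.a
    linarith
  have h4 : max (- (P.b - tX y t)) 0 ≤ |P.b| + K := by
    apply max_le _ (add_nonneg (abs_nonneg _) (h2.trans hY))
    have := neg_abs_le P.b
    linarith
  have h5 : ∑ i, max (- (y i t - x i t)) 0 ≤ tX x t := by
    apply Finset.sum_le_sum
    intro i _
    apply max_le _ (h.x0 i t ht)
    have := h.y0 i t ht
    linarith
  unfold vm
  linarith [h1.trans hX]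

/-- After a uniform time: ratio bounds, lower bounds for the totals, and decay of the negative
part. -/
theorem core1 (hP : P.Ok) {th : Fin N → ℝ × ℝ} (hth : P.IsEq th) {K e0 : ℝ} (hK : 0 ≤ K)
    (he0 : 0 < e0) :
    ∃ κ T V0 : ℝ, 0 < κ ∧ 0 ≤ T ∧ 0 ≤ V0 ∧ ∀ (t0 : ℝ) (x y : Fin N → ℝ → ℝ), Flow P t0 x y →
      (∀ t, t0 ≤ t → tX x t ≤ K) → (∀ t, t0 ≤ t → tX y t ≤ K) →
      (∀ t, t0 ≤ t → e0 ≤ Ew P th x y t) →
      ∀ t, t0 + T ≤ t → vm P x y t ≤ V0 * Real.exp (- κ * (t - (t0 + T))) := by
  obtain ⟨d0, d1, hd0, hd1, hd⟩ := exists_dbounds hP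
  obtain ⟨m0, m1, hm0, hm1, hm⟩ := exists_thbounds hth
  obtain ⟨r, T, hr0, hr1, hT, hrat⟩ := ratio_uniform hP hK
  have hal := hP.al
  have hbe := hP.be
  set M := m1 * (1 / P.al + 1 / P.be) with hM
  have hM0 : 0 < M := by positivity
  set c := r * (e0 / M) / 2 with hc
  have hc0 : 0 < c := by positivity
  set κ := min (r * c / 2) (min (P.al * d0) (P.be * d0)) with hκ
  have hκ0 : 0 < κ := lt_min (by positivity) (lt_min (by positivity) (by positivity))
  refine ⟨κ, T, |P.a| + |P.b| + 3 * K, hκ0, hT, by positivity, ?_⟩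
  intro t0 x y h hX hY hE t ht
  have h' := h.mono (show t0 ≤ t0 + T by linarith)
  have hr := hrat t0 x y h hX hY
  have hXY : ∀ s, t0 + T ≤ s → c ≤ tX x s ∧ c ≤ tX y s := by
    intro s hs
    have hs0 : t0 ≤ s := by linarith
    have h1 := (h.Ew_compare hP hm0 hm hs0).2.2
    have h2 := hE s hs0
    have h3 : e0 / M ≤ tX x s + tX y s := by
      rw [div_le_iff₀ hM0]
      linarith
    have h4 : r * tX x s ≤ tX y s := by
      unfold tX
      rw [Finset.mul_sum]
      exact Finset.sum_le_sum fun i _ => (hr i s hs).1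
    have h5 : r * tX y s ≤ tX x s := by
      unfold tX
      rw [Finset.mul_sum]
      exact Finset.sum_le_sum fun i _ => (hr i s hs).2
    have h6 := h.tX0 hs0
    have h7 := h.tY0 hs0
    have h8 : r * (e0 / M) ≤ r * (tX x s + tX y s) := mul_le_mul_of_nonneg_left h3 hr0.le
    constructor
    · rw [hc]
      nlinarith
    · rw [hc]
      nlinarith
  have hmain := h'.vm_decay hP (fun i => (hd i).1) hr0 hr1 (fun i s hs => (hr i s hs).1)
    (fun s hs => (hXY s hs).1) (fun s hs => (hXY s hs).2) hc0 hκ0 (min_le_left _ _)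
    ((min_le_right _ _).trans (min_le_left _ _)) ((min_le_right _ _).trans (min_le_right _ _)) t ht
  refine hmain.trans (mul_le_mul_of_nonneg_right ?_ (Real.exp_pos _).le)
  have h9 : t0 ≤ t0 + T := by linarith
  exact h.vm_le h9 (hX _ h9) (hY _ h9)

/-- The negative part is eventually small, uniformly. -/
theorem vm_small (hP : P.Ok) {th : Fin N → ℝ × ℝ} (hth : P.IsEq th) {K e0 : ℝ} (hK : 0 ≤ K)
    (he0 : 0 < e0) {ε : ℝ} (hε : 0 < ε) :
    ∃ T : ℝ, 0 ≤ T ∧ ∀ (t0 : ℝ) (x y : Fin N → ℝ → ℝ), Flow P t0 x y →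
      (∀ t, t0 ≤ t → tX x t ≤ K) → (∀ t, t0 ≤ t → tX y t ≤ K) →
      (∀ t, t0 ≤ t → e0 ≤ Ew P th x y t) →
      ∀ t, t0 + T ≤ t → vm P x y t ≤ ε := by
  obtain ⟨κ, T, V0, hκ, hT, hV0, h⟩ := core1 hP hth hK he0
  have hlim : Tendsto (fun s : ℝ => V0 * Real.exp (- κ * s)) atTop (𝓝 (V0 * 0)) := by
    apply Tendsto.const_mul
    apply Real.tendsto_exp_atBot.comp
    exact tendsto_id.const_mul_atTop_of_neg (by linarith)
  rw [mul_zero] at hlim
  obtain ⟨A, hA⟩ := (hlim.eventually (ge_mem_nhds hε)).exists_forall_of_atTop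
  refine ⟨T + max A 0, add_nonneg hT (le_max_right _ _), ?_⟩
  intro t0 x y hf hX hY hE t ht
  have h1 := le_max_left A 0
  have h2 := le_max_right A 0
  exact (h t0 x y hf hX hY hE t (by linarith)).trans (hA (t - (t0 + T)) (by linarith))

/-- The difference of growth rates is eventually bounded below by a positive constant. -/
theorem gg_lower (hP : P.Ok) {th : Fin N → ℝ × ℝ} (hth : P.IsEq th) {K e0 : ℝ} (hK : 0 ≤ K)
    (he0 : 0 < e0) :
    ∃ γ T : ℝ, 0 < γ ∧ 0 ≤ T ∧ ∀ (t0 : ℝ) (x y : Fin N → ℝ → ℝ), Flow P t0 x y →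
      (∀ t, t0 ≤ t → tX x t ≤ K) → (∀ t, t0 ≤ t → tX y t ≤ K) →
      (∀ t, t0 ≤ t → e0 ≤ Ew P th x y t) →
      ∀ t, t0 + T ≤ t → γ ≤ gg P x y t := by
  obtain ⟨d0, d1, hd0, hd1, hd⟩ := exists_dbounds hP
  have hal := hP.al
  have hbe := hP.be
  have hab := hP.ab
  set c1 := (P.al + P.be) * d0 * (P.b - P.a) with hc1
  have hc1' : 0 < c1 := mul_pos (by positivity) (by linarith)
  set c2 := K + (P.al + P.be) * d0 with hc2
  have hc2' : 0 < c2 := by positivity
  set c3 := K + (P.al + P.be) * d1 with hc3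
  have hc3' : 0 < c3 := by positivity
  set γ := c1 / (4 * c2) with hγ
  have hγ0 : 0 < γ := by positivity
  set G := (P.b - P.a) + K with hG
  have hG0 : 0 ≤ G := by linarith
  obtain ⟨T, hT, hvm⟩ := vm_small hP hth hK he0 (ε := c1 / (4 * c3)) (by positivity)
  refine ⟨γ, T + (γ + G) / (c1 / 2), hγ0, by positivity, ?_⟩
  intro t0 x y h hX hY hE t ht
  have h' := h.mono (show t0 ≤ t0 + T by linarith)
  refine reach_uniform (f := gg P x y) (t0 := t0 + T) (A := γ + G) (η := c1 / 2)
    (by positivity) h'.ggc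
    (fun s hs => h'.ggd hs) (fun s hs hle => ?_) ?_ (by positivity) t (by linarith)
  · have hs0 : t0 ≤ s := by linarith
    have h1 := hvm t0 x y h hX hY hE s hs
    have h2 : c3 * vm P x y s ≤ c1 / 4 := by
      calc c3 * vm P x y s ≤ c3 * (c1 / (4 * c3)) := mul_le_mul_of_nonneg_left h1 hc3'.le
        _ = c1 / 4 := by field_simp
    have h3 : c2 * gg P x y s ≤ c1 / 4 := by
      calc c2 * gg P x y s ≤ c2 * (c1 / (4 * c2)) := mul_le_mul_of_nonneg_left hle hc2'.le
        _ = c1 / 4 := by field_simp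
    -- the algebraic inequality
    set Xp := max (- (tX x s - P.a)) 0 with hXp
    set Bp := max (- (P.b - tX y s)) 0 with hBp
    have hXp0 : 0 ≤ Xp := le_max_right _ _
    have hBp0 : 0 ≤ Bp := le_max_right _ _
    have hX1 : - (tX x s - P.a) ≤ Xp := le_max_left _ _
    have hB1 : - (P.b - tX y s) ≤ Bp := le_max_left _ _
    set S := ∑ i, max (- (y i s - x i s)) 0 with hS
    have hS0 : 0 ≤ S := Finset.sum_nonneg fun i _ => le_max_right _ _
    have hvm' : vm P x y s = Xp + Bp + S := rfl
    have hD : d0 * (P.b - P.a - gg P x y s) - d1 * S ≤ ∑ i, P.d i * (y i s - x i s) := by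
      have e1 : P.b - P.a - gg P x y s = ∑ i, (y i s - x i s) := by
        rw [Finset.sum_sub_distrib]
        simp only [gg, tX]
        ring
      rw [e1, hS, Finset.mul_sum, Finset.mul_sum, ← Finset.sum_sub_distrib]
      apply Finset.sum_le_sum
      intro i _
      have h4 := (hd i).1
      have h5 := (hd i).2
      rcases le_total 0 (y i s - x i s) with h6 | h6
      · rw [max_eq_right (by linarith)]
        nlinarith
      · rw [max_eq_left (by linarith)]
        nlinarith
    have hx1 : tX x s * (tX x s - P.a) ≤ K * (tX x s - P.a + Xp) := by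
      have h6 := h.tX0 hs0
      have h7 := hX s hs0
      nlinarith
    have hy1 : tX y s * (P.b - tX y s) ≤ K * (P.b - tX y s + Bp) := by
      have h6 := h.tY0 hs0
      have h7 := hY s hs0
      nlinarith
    have hg : gg P x y s = (tX x s - P.a) + (P.b - tX y s) := by
      simp only [gg]
      ring
    have h8 : (P.al + P.be) * (d0 * (P.b - P.a - gg P x y s) - d1 * S) ≤
        (P.al + P.be) * (∑ i, P.d i * (y i s - x i s)) :=
      mul_le_mul_of_nonneg_left hD (by positivity)
    have h9 : K * (Xp + Bp) + (P.al + P.be) * d1 * S ≤ c3 * vm P x y s := by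
      rw [hvm', hc3]
      have : 0 ≤ K * S := mul_nonneg hK hS0
      have : 0 ≤ (P.al + P.be) * d1 * (Xp + Bp) := by positivity
      nlinarith
    have h10 : c2 * gg P x y s = K * gg P x y s + (P.al + P.be) * d0 * gg P x y s := by
      rw [hc2]
      ring
    have h11 : (P.al + P.be) * (d0 * (P.b - P.a - gg P x y s) - d1 * S) =
        c1 - (P.al + P.be) * d0 * gg P x y s - (P.al + P.be) * d1 * S := by
      rw [hc1]
      ring
    have h12 : K * (tX x s - P.a + Xp) + K * (P.b - tX y s + Bp) =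
        K * gg P x y s + K * (Xp + Bp) := by
      rw [hg]
      ring
    have h13 : - tX x s * (tX x s - P.a) = - (tX x s * (tX x s - P.a)) := by ring
    have h14 : - tX y s * (P.b - tX y s) = - (tX y s * (P.b - tX y s)) := by ring
    nlinarith
  · have h9 : t0 ≤ t0 + T := by linarith
    have := (abs_le.mp (h.gg_abs hP h9 (hX _ h9) (hY _ h9))).1
    linarith

/-- The fraction of each present species in the good patch is eventually uniformly above the
value for equal densities. -/
theorem pr_lower (hP : P.Ok) {th : Fin N → ℝ × ℝ} (hth : P.IsEq th) {K e0 : ℝ} (hK : 0 ≤ K)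
    (he0 : 0 < e0) :
    ∃ γ r ε T : ℝ, 0 < γ ∧ 0 < r ∧ r ≤ 1 / 2 ∧ 0 < ε ∧ 0 ≤ T ∧
      ∀ (t0 : ℝ) (x y : Fin N → ℝ → ℝ), Flow P t0 x y →
      (∀ t, t0 ≤ t → tX x t ≤ K) → (∀ t, t0 ≤ t → tX y t ≤ K) →
      (∀ t, t0 ≤ t → e0 ≤ Ew P th x y t) →
      ∀ t, t0 + T ≤ t → γ ≤ gg P x y t ∧ ∀ i, 0 < sm P x y i t0 →
        r ≤ pr P x y i t ∧ r ≤ 1 - pr P x y i t ∧
        P.al / (P.al + P.be) + ε ≤ pr P x y i t := by
  obtain ⟨d0, d1, hd0, hd1, hd⟩ := exists_dbounds hP
  obtain ⟨γ, T1, hγ, hT1, hg⟩ := gg_lower hP hth hK he0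
  obtain ⟨r, T2, hr0, hr1, hT2, hr⟩ := pr_uniform hP hK
  have hal := hP.al
  have hbe := hP.be
  set ε := γ * r / (4 * (d1 * (P.al + P.be))) with hε
  have hε0 : 0 < ε := by positivity
  set A := P.al / (P.al + P.be) + ε with hA
  have hA0 : 0 < A := by positivity
  refine ⟨γ, r, ε, T1 + T2 + A / (γ * r / 4), hγ, hr0, hr1, hε0, by positivity, ?_⟩
  intro t0 x y h hX hY hE t ht
  have hpos : 0 ≤ A / (γ * r / 4) := by positivity
  refine ⟨hg t0 x y h hX hY hE t (by linarith), fun i hi => ?_⟩
  obtain ⟨hr2, hr3⟩ := hr t0 x y h hX hY i hi t (by linarith)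
  refine ⟨hr2, hr3, ?_⟩
  have h' := h.mono (show t0 ≤ t0 + (T1 + T2) by linarith)
  have hs : ∀ s, t0 ≤ s → 0 < sm P x y i s := fun s hs => h.sm_pos hP hX hY hi hs
  have hs' : ∀ s, t0 + (T1 + T2) ≤ s → 0 < sm P x y i s := fun s hh => hs s (by linarith)
  refine reach_uniform (f := pr P x y i) (t0 := t0 + (T1 + T2)) (A := A) (η := γ * r / 4)
    (by positivity) (h'.prc hs') (fun s hh => h'.prd hP hh i (hs' s hh)) (fun s hh hle => ?_)
    (by
      have := h'.pr_nonneg hP (le_refl _) i
      linarith) hA0.le t (by linarith)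
  obtain ⟨h1, h2⟩ := hr t0 x y h hX hY i hi s (by linarith)
  have h3 := hg t0 x y h hX hY hE s (by linarith)
  have h4 := (hd i).2
  have h5 := hP.d i
  set p := pr P x y i s
  set g := gg P x y s
  have e1 : γ * (r / 2) ≤ g * p * (1 - p) := by
    have h6 : r / 2 ≤ p * (1 - p) := by nlinarith
    calc γ * (r / 2) ≤ g * (p * (1 - p)) := mul_le_mul h3 h6 (by linarith) (by linarith)
      _ = g * p * (1 - p) := by ring
  have e2 : - (γ * r / 4) ≤ P.d i * (P.al - (P.al + P.be) * p) := by
    have h7 : (P.al + P.be) * p ≤ P.al + (P.al + P.be) * ε := by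
      calc (P.al + P.be) * p ≤ (P.al + P.be) * (P.al / (P.al + P.be) + ε) :=
            mul_le_mul_of_nonneg_left hle (by positivity)
        _ = P.al + (P.al + P.be) * ε := by field_simp
    have h8 : d1 * ((P.al + P.be) * ε) = γ * r / 4 := by
      rw [hε]
      field_simp
    have h9 : 0 ≤ (P.al + P.be) * ε := by positivity
    have h10 : P.d i * ((P.al + P.be) * ε) ≤ d1 * ((P.al + P.be) * ε) :=
      mul_le_mul_of_nonneg_right h4 h9
    nlinarith
  linarith

/-- The derivative of the log-odds of the fraction. -/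
theorem Flow.lod (h : Flow P t0 x y) (hP : P.Ok) {t : ℝ} (ht : t0 ≤ t) (i : Fin N)
    (hs : 0 < sm P x y i t) (h0 : 0 < pr P x y i t) (h1 : 0 < 1 - pr P x y i t) :
    HasDerivWithinAt (fun s => Real.log (pr P x y i s) - Real.log (1 - pr P x y i s))
      (gg P x y t + P.d i * (P.al / pr P x y i t - P.be / (1 - pr P x y i t))) (Ici t) t := by
  have hd := h.prd hP ht i hs
  have h2 := (hd.log h0.ne').sub ((hd.const_sub 1).log h1.ne')
  refine h2.congr_deriv ?_
  field_simp
  ring

/-- The uniform separation of the fractions and the resulting selection gradient. -/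
theorem core2 (hP : P.Ok) {th : Fin N → ℝ × ℝ} (hth : P.IsEq th) {K e0 : ℝ} (hK : 0 ≤ K)
    (he0 : 0 < e0) :
    ∃ r ν T : ℝ, 0 < r ∧ 0 < ν ∧ 0 ≤ T ∧
      ∀ (t0 : ℝ) (x y : Fin N → ℝ → ℝ), Flow P t0 x y →
      (∀ t, t0 ≤ t → tX x t ≤ K) → (∀ t, t0 ≤ t → tX y t ≤ K) →
      (∀ t, t0 ≤ t → e0 ≤ Ew P th x y t) →
      ∀ t, t0 + T ≤ t → (∀ i, 0 < sm P x y i t0 → r ≤ pr P x y i t ∧ r ≤ 1 - pr P x y i t) ∧
        ∀ i j, i < j → 0 < sm P x y i t0 → 0 < sm P x y j t0 →
          ν ≤ gg P x y t * (pr P x y i t - pr P x y j t) := by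
  obtain ⟨d0, d1, hd0, hd1, hd⟩ := exists_dbounds hP
  obtain ⟨δ, hδ, hgap⟩ := exists_gap hP
  obtain ⟨γ, r, ε, T1, hγ, hr0, hr1, hε, hT1, hmain⟩ := pr_lower hP hth hK he0
  have hal := hP.al
  have hbe := hP.be
  have hab := hP.ab
  set G := (P.b - P.a) + K with hG
  have hG0 : 0 < G := by linarith
  set w := δ * ((P.al + P.be) * ε) with hw
  have hw0 : 0 < w := by positivity
  set L := - (2 * Real.log r) with hL
  have hL0 : 0 ≤ L := by
    have := Real.log_nonpos hr0.le (by linarith)
    linarith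
  set γ' := w / (2 * (G + d1 * (P.al + P.be))) with hγ'
  have hγ'0 : 0 < γ' := by positivity
  refine ⟨r, γ * γ', T1 + L / w + γ' / (w / 2), hr0, by positivity, by positivity, ?_⟩
  intro t0 x y h hX hY hE t ht
  have hLw : 0 ≤ L / w := by positivity
  have hgw : 0 ≤ γ' / (w / 2) := by positivity
  have hm := hmain t0 x y h hX hY hE
  refine ⟨fun i hi => ?_, fun i j hij hi hj => ?_⟩
  · obtain ⟨h1, h2, -⟩ := (hm t (by linarith)).2 i hi
    exact ⟨h1, h2⟩
  have hsi : ∀ s, t0 ≤ s → 0 < sm P x y i s := fun s hs => h.sm_pos hP hX hY hi hs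
  have hsj : ∀ s, t0 ≤ s → 0 < sm P x y j s := fun s hs => h.sm_pos hP hX hY hj hs
  have h' := h.mono (show t0 ≤ t0 + T1 by linarith)
  have hgapij := hgap i j hij
  -- step 1: order of the fractions
  have hord : ∀ s, t0 + T1 + L / w ≤ s → pr P x y j s ≤ pr P x y i s := by
    intro s hs
    have hpi : ∀ s, t0 + T1 ≤ s → 0 < pr P x y i s ∧ 0 < 1 - pr P x y i s := by
      intro s hs
      obtain ⟨h1, h2, -⟩ := (hm s hs).2 i hi
      exact ⟨by linarith, by linarith⟩
    have hpj : ∀ s, t0 + T1 ≤ s → 0 < pr P x y j s ∧ 0 < 1 - pr P x y j s := by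
      intro s hs
      obtain ⟨h1, h2, -⟩ := (hm s hs).2 j hj
      exact ⟨by linarith, by linarith⟩
    have hci : ContinuousOn (pr P x y i) (Ici (t0 + T1)) :=
      h'.prc (fun s hs => hsi s (by linarith))
    have hcj : ContinuousOn (pr P x y j) (Ici (t0 + T1)) :=
      h'.prc (fun s hs => hsj s (by linarith))
    have hreach := reach_uniform (f := fun s => (Real.log (pr P x y i s) -
        Real.log (1 - pr P x y i s)) - (Real.log (pr P x y j s) - Real.log (1 - pr P x y j s)))
      (t0 := t0 + T1) (A := L) (η := w) (c := 0) hw0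
      (((hci.log (fun s hs => (hpi s hs).1.ne')).sub
        ((continuousOn_const.sub hci).log (fun s hs => (hpi s hs).2.ne'))).sub
        ((hcj.log (fun s hs => (hpj s hs).1.ne')).sub
        ((continuousOn_const.sub hcj).log (fun s hs => (hpj s hs).2.ne'))))
      (fun s hs => (h'.lod hP hs i (hsi s (by linarith)) (hpi s hs).1 (hpi s hs).2).sub
        (h'.lod hP hs j (hsj s (by linarith)) (hpj s hs).1 (hpj s hs).2))
      (fun s hs hle => ?_) ?_ hL0 s (by linarith)
    · -- conclusion
      by_contra hcon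
      push Not at hcon
      obtain ⟨h1, h2⟩ := hpi s (by linarith)
      obtain ⟨h3, h4⟩ := hpj s (by linarith)
      have h5 := Real.log_lt_log h1 hcon
      have h6 : Real.log (1 - pr P x y j s) < Real.log (1 - pr P x y i s) :=
        Real.log_lt_log h4 (by linarith)
      linarith
    · -- derivative bound
      obtain ⟨h1, h2⟩ := hpi s hs
      obtain ⟨h3, h4⟩ := hpj s hs
      obtain ⟨-, -, h5⟩ := (hm s hs).2 j hj
      have hple : pr P x y i s ≤ pr P x y j s := by
        by_contra hcon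
        push Not at hcon
        have h6 := Real.log_lt_log h3 hcon
        have h7 : Real.log (1 - pr P x y i s) < Real.log (1 - pr P x y j s) :=
          Real.log_lt_log h2 (by linarith)
        linarith
      set p := pr P x y i s
      set q := pr P x y j s
      have e1 : P.be / (1 - p) - P.al / p ≤ P.be / (1 - q) - P.al / q := by
        have h8 : P.be / (1 - p) ≤ P.be / (1 - q) :=
          div_le_div_of_nonneg_left hbe.le h4 (by linarith)
        have h9 : P.al / q ≤ P.al / p := div_le_div_of_nonneg_left hal.le h1 hple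
        linarith
      have e2 : (P.al + P.be) * ε ≤ P.be / (1 - q) - P.al / q := by
        have h8 : P.be / (1 - q) - P.al / q = ((P.al + P.be) * q - P.al) / (q * (1 - q)) := by
          field_simp
          ring
        have h9 : (P.al + P.be) * ε ≤ (P.al + P.be) * q - P.al := by
          have : (P.al + P.be) * (P.al / (P.al + P.be) + ε) ≤ (P.al + P.be) * q :=
            mul_le_mul_of_nonneg_left h5 (by positivity)
          have e3 : (P.al + P.be) * (P.al / (P.al + P.be) + ε) = P.al + (P.al + P.be) * ε := by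
            field_simp
          linarith
        rw [h8, le_div_iff₀ (mul_pos h3 h4)]
        have h10 : q * (1 - q) ≤ 1 := by nlinarith
        have h11 : 0 ≤ (P.al + P.be) * ε := by positivity
        nlinarith
      have hdi := hP.d i
      have hdj := hP.d j
      have h11 : 0 ≤ (P.al + P.be) * ε := by positivity
      have e4 : P.d i * (P.be / (1 - p) - P.al / p) ≤ P.d i * (P.be / (1 - q) - P.al / q) :=
        mul_le_mul_of_nonneg_left e1 hdi.le
      have e5 : δ * ((P.al + P.be) * ε) ≤ (P.d j - P.d i) * (P.be / (1 - q) - P.al / q) :=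
        mul_le_mul hgapij e2 h11 (by linarith)
      have e6 : P.d i * (P.al / p - P.be / (1 - p)) = - (P.d i * (P.be / (1 - p) - P.al / p)) := by
        ring
      have e7 : P.d j * (P.al / q - P.be / (1 - q)) = - (P.d j * (P.be / (1 - q) - P.al / q)) := by
        ring
      have e8 : (P.d j - P.d i) * (P.be / (1 - q) - P.al / q) =
        P.d j * (P.be / (1 - q) - P.al / q) - P.d i * (P.be / (1 - q) - P.al / q) := by ring
      rw [hw]
      linarith
    · -- initial bound
      obtain ⟨h1, h2, -⟩ := (hm (t0 + T1) (le_refl _)).2 i hi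
      obtain ⟨h3, h4, -⟩ := (hm (t0 + T1) (le_refl _)).2 j hj
      have h5 := Real.log_le_log hr0 h1
      have h6 := Real.log_le_log hr0 h4
      have h7 : Real.log (1 - pr P x y i (t0 + T1)) ≤ 0 :=
        Real.log_nonpos (by linarith) (by linarith)
      have h8 : Real.log (pr P x y j (t0 + T1)) ≤ 0 :=
        Real.log_nonpos (by linarith) (by linarith)
      rw [hL]
      linarith
  -- step 2: separation
  have h'' := h.mono (show t0 ≤ t0 + T1 + L / w by linarith)
  have hci : ContinuousOn (pr P x y i) (Ici (t0 + T1 + L / w)) :=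
    h''.prc (fun s hs => hsi s (by linarith))
  have hcj : ContinuousOn (pr P x y j) (Ici (t0 + T1 + L / w)) :=
    h''.prc (fun s hs => hsj s (by linarith))
  have hsep : γ' ≤ pr P x y i t - pr P x y j t := by
    refine reach_uniform (f := fun s => pr P x y i s - pr P x y j s) (t0 := t0 + T1 + L / w)
      (A := γ') (η := w / 2) (by positivity) (hci.sub hcj)
      (fun s hs => (h''.prd hP hs i (hsi s (by linarith))).sub
        (h''.prd hP hs j (hsj s (by linarith)))) (fun s hs hle => ?_) ?_ hγ'0.le t (by linarith)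
    · have ho := hord s hs
      obtain ⟨h1, h2, -⟩ := (hm s (by linarith)).2 i hi
      obtain ⟨h3, h4, h5⟩ := (hm s (by linarith)).2 j hj
      have h6 := h.gg_abs hP (show t0 ≤ s by linarith) (hX s (by linarith)) (hY s (by linarith))
      have h7 := abs_le.mp h6
      have hdi := (hd i).2
      have hdi0 := hP.d i
      set p := pr P x y i s
      set q := pr P x y j s
      set g := gg P x y s
      have h9 : (P.al + P.be) * ε ≤ (P.al + P.be) * q - P.al := by
        have : (P.al + P.be) * (P.al / (P.al + P.be) + ε) ≤ (P.al + P.be) * q :=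
          mul_le_mul_of_nonneg_left h5 (by positivity)
        have e3 : (P.al + P.be) * (P.al / (P.al + P.be) + ε) = P.al + (P.al + P.be) * ε := by
          field_simp
        linarith
      have e1 : w ≤ (P.d j - P.d i) * ((P.al + P.be) * q - P.al) :=
        mul_le_mul hgapij h9 (by positivity) (by linarith)
      have e2 : g * p * (1 - p) + P.d i * (P.al - (P.al + P.be) * p) -
          (g * q * (1 - q) + P.d j * (P.al - (P.al + P.be) * q)) =
          (p - q) * (g * (1 - p - q)) - (p - q) * (P.d i * (P.al + P.be)) +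
            (P.d j - P.d i) * ((P.al + P.be) * q - P.al) := by ring
      rw [e2]
      have h10 : 0 ≤ p - q := by linarith
      have e3 : - ((p - q) * G) ≤ (p - q) * (g * (1 - p - q)) := by
        have h11 : -G ≤ g * (1 - p - q) := by
          have h12 : |1 - p - q| ≤ 1 := by
            rw [abs_le]
            constructor <;> linarith
          have h13 : |g * (1 - p - q)| ≤ G * 1 := by
            rw [abs_mul]
            exact mul_le_mul h6 h12 (abs_nonneg _) hG0.le
          have := (abs_le.mp h13).1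
          linarith
        nlinarith
      have e4 : (p - q) * (P.d i * (P.al + P.be)) ≤ (p - q) * (d1 * (P.al + P.be)) := by
        apply mul_le_mul_of_nonneg_left _ h10
        exact mul_le_mul_of_nonneg_right hdi (by positivity)
      have e5 : (p - q) * (G + d1 * (P.al + P.be)) ≤ w / 2 := by
        calc (p - q) * (G + d1 * (P.al + P.be)) ≤ γ' * (G + d1 * (P.al + P.be)) :=
              mul_le_mul_of_nonneg_right hle (by positivity)
          _ = w / 2 := by
            rw [hγ']
            field_simp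
      nlinarith
    · have := hord (t0 + T1 + L / w) (le_refl _)
      linarith
  have hgt := (hm t (by linarith)).1
  exact mul_le_mul hgt hsep hγ'0.le (hγ.le.trans hgt)

end

end Pool.Agent.Lib.MP_d8ef8f_an.TwoPatch
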