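import Pool.Agent.Lib.MP_d8ef8f_an.TwoPatch.Basic

/-!
# Decay lemmas in both time directions
-/

set_option autoImplicit false

open Set Filter Topology

namespace Pool.Agent.Lib.MP_d8ef8f_an.TwoPatch

/-- Exponential lower bound on a compact interval. -/
theorem exp_lower_Icc {f f' : ℝ → ℝ} {t0 t1 k : ℝ} (h01 : t0 ≤ t1)
    (hc : ContinuousOn f (Icc t0 t1))
    (hd : ∀ t ∈ Ico t0 t1, HasDerivWithinAt f (f' t) (Ici t) t)
    (h : ∀ t ∈ Ico t0 t1, k * f t ≤ f' t) :
    f t0 * Real.exp (k * (t1 - t0)) ≤ f t1 := by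
  have h1 : ∀ s : ℝ, HasDerivAt (fun r : ℝ => Real.exp (- (k * (r - t0))))
      (Real.exp (- (k * (s - t0))) * (- (k * 1))) s := by
    intro s
    have := ((((hasDerivAt_id s).sub_const t0).const_mul k).neg).exp
    simpa using this
  have := linear_lower_Icc (f := fun s => f s * Real.exp (- (k * (s - t0))))
    (f' := fun s => f' s * Real.exp (- (k * (s - t0))) +
      f s * (Real.exp (- (k * (s - t0))) * (- (k * 1)))) (t0 := t0) (t1 := t1) (c := 0)
    (hc.mul (by fun_prop))
    (fun s hs => (hd s hs).mul (h1 s).hasDerivWithinAt)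
    (fun s hs => by
      have h2 := h s hs
      have h3 := Real.exp_pos (- (k * (s - t0)))
      have : f' s * Real.exp (- (k * (s - t0))) +
        f s * (Real.exp (- (k * (s - t0))) * (- (k * 1))) =
        (f' s - k * f s) * Real.exp (- (k * (s - t0))) := by ring
      rw [this]
      apply mul_nonneg _ h3.le
      linarith) t1 ⟨h01, le_refl _⟩
  simp only [sub_self, mul_zero, neg_zero, Real.exp_zero, mul_one, zero_mul, add_zero] at this
  have h4 : f t1 * Real.exp (- (k * (t1 - t0))) * Real.exp (k * (t1 - t0)) = f t1 := by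
    rw [mul_assoc, ← Real.exp_add]
    simp
  calc f t0 * Real.exp (k * (t1 - t0))
      ≤ f t1 * Real.exp (- (k * (t1 - t0))) * Real.exp (k * (t1 - t0)) :=
        mul_le_mul_of_nonneg_right this (Real.exp_pos _).le
    _ = f t1 := h4

/-- Affine upper bound on a compact interval. -/
theorem affine_upper_Icc {f f' : ℝ → ℝ} {t0 t1 k e : ℝ} (h01 : t0 ≤ t1) (hk : 0 < k)
    (he : 0 ≤ e)
    (hc : ContinuousOn f (Icc t0 t1))
    (hd : ∀ t ∈ Ico t0 t1, HasDerivWithinAt f (f' t) (Ici t) t)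
    (h : ∀ t ∈ Ico t0 t1, f' t ≤ - k * f t + e) :
    f t1 ≤ |f t0| * Real.exp (- k * (t1 - t0)) + e / k := by
  have := exp_lower_Icc (f := fun s => - (f s - e / k)) (f' := fun s => - f' s) (t0 := t0)
    (t1 := t1) (k := - k) h01
    (hc.sub continuousOn_const).neg
    (fun s hs => by
      exact ((hd s hs).sub_const (e / k)).neg)
    (fun s hs => by
      have := h s hs
      have h2 : k * (e / k) = e := by field_simp
      nlinarith)
  have h1 : (f t0 - e / k) * Real.exp (- k * (t1 - t0)) ≤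
      |f t0| * Real.exp (- k * (t1 - t0)) := by
    apply mul_le_mul_of_nonneg_right _ (Real.exp_pos _).le
    have : 0 ≤ e / k := by positivity
    have := le_abs_self (f t0)
    linarith
  linarith

/-- Forward decay. -/
theorem decay_top {f f' E : ℝ → ℝ} {t0 k : ℝ} (hk : 0 < k) (hc : ContinuousOn f (Ici t0))
    (hd : ∀ t, t0 ≤ t → HasDerivWithinAt f (f' t) (Ici t) t)
    (h : ∀ t, t0 ≤ t → f' t ≤ - k * f t + E t) (hE : Tendsto E atTop (𝓝 0))
    (hf : ∀ t, t0 ≤ t → 0 ≤ f t) : Tendsto f atTop (𝓝 0) := by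
  rw [Metric.tendsto_atTop]
  intro ε hε
  have hek : 0 < k * (ε / 2) := by positivity
  obtain ⟨A, hA⟩ := (hE.eventually (ge_mem_nhds (show (0:ℝ) < k * (ε / 4) by positivity))).exists_forall_of_atTop
  set t1 := max A t0 with ht1
  have hA1 : A ≤ t1 := le_max_left _ _
  have ht01 : t0 ≤ t1 := le_max_right _ _
  have hlim : Tendsto (fun s : ℝ => |f t1| * Real.exp (- k * (s - t1))) atTop
      (𝓝 (|f t1| * 0)) := by
    apply Tendsto.const_mul
    apply Real.tendsto_exp_atBot.comp
    apply Tendsto.const_mul_atTop_of_neg (by linarith)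
    exact tendsto_atTop_add_const_right _ _ tendsto_id
  rw [mul_zero] at hlim
  obtain ⟨B, hB⟩ := (hlim.eventually (gt_mem_nhds (show (0:ℝ) < ε / 2 by positivity))).exists_forall_of_atTop
  refine ⟨max B t1, fun t ht => ?_⟩
  have hBt : B ≤ t := (le_max_left _ _).trans ht
  have h1t : t1 ≤ t := (le_max_right _ _).trans ht
  have h1 := affine_upper_Icc (f := f) (f' := f') (t0 := t1) (t1 := t) (k := k)
    (e := k * (ε / 4)) h1t hk (by positivity)
    (hc.mono (Icc_subset_Ici_self.trans (Ici_subset_Ici.mpr ht01)))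
    (fun s hs => hd s (ht01.trans hs.1))
    (fun s hs => by
      have h2 := h s (ht01.trans hs.1)
      have h3 := hA s (hA1.trans hs.1)
      linarith)
  have h4 := hB t hBt
  have h5 : k * (ε / 4) / k = ε / 4 := by field_simp
  have h6 := hf t (ht01.trans h1t)
  rw [Real.dist_eq, sub_zero, abs_of_nonneg h6]
  linarith

/-- Backward decay for bounded functions. -/
theorem decay_bot {f f' E : ℝ → ℝ} {t1 k B : ℝ} (hk : 0 < k) (hc : Continuous f)
    (hd : ∀ t, HasDerivWithinAt f (f' t) (Ici t) t)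
    (h : ∀ t, t ≤ t1 → f' t ≤ - k * f t + E t) (hE : Tendsto E atBot (𝓝 0))
    (hf : ∀ t, t ≤ t1 → 0 ≤ f t) (hB : ∀ t, t ≤ t1 → f t ≤ B) : Tendsto f atBot (𝓝 0) := by
  rw [Metric.tendsto_nhds]
  intro ε hε
  have := (hE.eventually (ge_mem_nhds (show (0:ℝ) < k * (ε / 2) by positivity)))
  rw [eventually_atBot] at this
  obtain ⟨A, hA⟩ := this
  rw [eventually_atBot]
  refine ⟨min A t1, fun t ht => ?_⟩
  have hAt : t ≤ A := ht.trans (min_le_left _ _)
  have h1t : t ≤ t1 := ht.trans (min_le_right _ _)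
  have hlim : Tendsto (fun s : ℝ => B * Real.exp (- k * (t - s)) + ε / 2) atBot
      (𝓝 (B * 0 + ε / 2)) := by
    apply Tendsto.add_const
    apply Tendsto.const_mul
    apply Real.tendsto_exp_atBot.comp
    apply Tendsto.const_mul_atTop_of_neg (by linarith)
    exact tendsto_atTop_add_const_left _ _ tendsto_neg_atBot_atTop
  rw [mul_zero, zero_add] at hlim
  have hle : f t ≤ ε / 2 := by
    refine ge_of_tendsto hlim ?_
    rw [eventually_atBot]
    refine ⟨t, fun s hs => ?_⟩
    have h1 := affine_upper_Icc (f := f) (f' := f') (t0 := s) (t1 := t) (k := k)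
      (e := k * (ε / 2)) hs hk (by positivity) hc.continuousOn (fun r _ => hd r)
      (fun r hr => by
        have h2 := h r (hr.2.le.trans h1t)
        have h3 := hA r (hr.2.le.trans hAt)
        linarith)
    have h5 : k * (ε / 2) / k = ε / 2 := by field_simp
    have h6 : |f s| ≤ B := by
      rw [abs_of_nonneg (hf s (hs.trans h1t))]
      exact hB s (hs.trans h1t)
    have h7 := mul_le_mul_of_nonneg_right h6 (Real.exp_pos (- k * (t - s))).le
    linarith
  rw [Real.dist_eq, sub_zero, abs_of_nonneg (hf t h1t)]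
  linarith

/-- A bounded nonnegative entire function with `f' ≤ - k f` vanishes. -/
theorem zero_of_decay {f f' : ℝ → ℝ} {k B : ℝ} (hk : 0 < k) (hc : Continuous f)
    (hd : ∀ t, HasDerivWithinAt f (f' t) (Ici t) t)
    (h : ∀ t, f' t ≤ - k * f t) (hf : ∀ t, 0 ≤ f t) (hB : ∀ t, f t ≤ B) (t : ℝ) : f t = 0 := by
  apply le_antisymm _ (hf t)
  have hlim : Tendsto (fun s : ℝ => B * Real.exp (- k * (t - s))) atBot (𝓝 (B * 0)) := by
    apply Tendsto.const_mul
    apply Real.tendsto_exp_atBot.comp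
    apply Tendsto.const_mul_atTop_of_neg (by linarith)
    exact tendsto_atTop_add_const_left _ _ tendsto_neg_atBot_atTop
  rw [mul_zero] at hlim
  refine ge_of_tendsto hlim ?_
  rw [eventually_atBot]
  refine ⟨t, fun s hs => ?_⟩
  have h1 := affine_upper_Icc (f := f) (f' := f') (t0 := s) (t1 := t) (k := k)
    (e := 0) hs hk (le_refl _) hc.continuousOn (fun r _ => hd r)
    (fun r _ => by
      have h2 := h r
      linarith)
  have h6 : |f s| ≤ B := by
    rw [abs_of_nonneg (hf s)]
    exact hB s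
  have h7 := mul_le_mul_of_nonneg_right h6 (Real.exp_pos (- k * (t - s))).le
  simp only [zero_div, add_zero] at h1
  linarith

/-- Lower bound of the entropy-like function. -/
theorem sqrt_le_entropy {x θ : ℝ} (hx : 0 < x) (hθ : 0 < θ) :
    (Real.sqrt x - Real.sqrt θ) ^ 2 ≤ x - θ - θ * Real.log (x / θ) := by
  have h1 : Real.log (x / θ) ≤ 2 * (Real.sqrt (x / θ) - 1) := by
    have h2 : 0 < Real.sqrt (x / θ) := Real.sqrt_pos.mpr (by positivity)
    have h3 := Real.log_le_sub_one_of_pos h2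
    have h4 : Real.log (Real.sqrt (x / θ)) = Real.log (x / θ) / 2 :=
      Real.log_sqrt (by positivity)
    linarith
  have h5 : θ * Real.sqrt (x / θ) = Real.sqrt x * Real.sqrt θ := by
    rw [Real.sqrt_div hx.le]
    have h6 : Real.sqrt θ * Real.sqrt θ = θ := Real.mul_self_sqrt hθ.le
    have h7 : Real.sqrt θ ≠ 0 := (Real.sqrt_pos.mpr hθ).ne'
    rw [mul_div_assoc', div_eq_iff h7]
    calc θ * Real.sqrt x = (Real.sqrt θ * Real.sqrt θ) * Real.sqrt x := by rw [h6]
      _ = _ := by ring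
  have h8 : (Real.sqrt x - Real.sqrt θ) ^ 2 = x + θ - 2 * (Real.sqrt x * Real.sqrt θ) := by
    have h6 : Real.sqrt θ * Real.sqrt θ = θ := Real.mul_self_sqrt hθ.le
    have h9 : Real.sqrt x * Real.sqrt x = x := Real.mul_self_sqrt hx.le
    nlinarith
  have h9 : θ * Real.log (x / θ) ≤ θ * (2 * (Real.sqrt (x / θ) - 1)) :=
    mul_le_mul_of_nonneg_left h1 hθ.le
  rw [h8, ← h5]
  nlinarith

/-- Upper bound of the entropy-like function. -/
theorem entropy_le {x θ c : ℝ} (hc : 0 < c) (hx : c ≤ x) (hθ : 0 < θ) :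
    c * (x - θ - θ * Real.log (x / θ)) ≤ (x - θ) ^ 2 := by
  have hx0 : 0 < x := lt_of_lt_of_le hc hx
  have h1 : 1 - θ / x ≤ Real.log (x / θ) := by
    have h2 := Real.log_le_sub_one_of_pos (show 0 < θ / x by positivity)
    have h3 : Real.log (θ / x) = - Real.log (x / θ) := by
      rw [← Real.log_inv]
      congr 1
      field_simp
    linarith
  have h4 : θ * (1 - θ / x) ≤ θ * Real.log (x / θ) := mul_le_mul_of_nonneg_left h1 hθ.le
  have h5 : x - θ - θ * Real.log (x / θ) ≤ (x - θ) ^ 2 / x := by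
    have h6 : (x - θ) ^ 2 / x = x - θ - θ * (1 - θ / x) := by
      field_simp
    linarith
  have h7 : 0 ≤ x - θ - θ * Real.log (x / θ) :=
    (sq_nonneg _).trans (sqrt_le_entropy hx0 hθ)
  calc c * (x - θ - θ * Real.log (x / θ)) ≤ x * (x - θ - θ * Real.log (x / θ)) :=
        mul_le_mul_of_nonneg_right hx h7
    _ ≤ x * ((x - θ) ^ 2 / x) := mul_le_mul_of_nonneg_left h5 hx0.le
    _ = (x - θ) ^ 2 := by field_simp

/-- Convergence from the entropy. -/
theorem tendsto_of_entropy {l : Filter ℝ} {x : ℝ → ℝ} {θ : ℝ} (hθ : 0 < θ)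
    (hx : ∀ᶠ t in l, 0 < x t)
    (h : Tendsto (fun t => x t - θ - θ * Real.log (x t / θ)) l (𝓝 0)) :
    Tendsto x l (𝓝 θ) := by
  have h1 : Tendsto (fun t => (Real.sqrt (x t) - Real.sqrt θ) ^ 2) l (𝓝 0) := by
    refine tendsto_of_tendsto_of_tendsto_of_le_of_le' tendsto_const_nhds h ?_ ?_
    · exact Eventually.of_forall fun t => sq_nonneg _
    · filter_upwards [hx] with t ht
      exact sqrt_le_entropy ht hθ
  have h2 : Tendsto (fun t => |Real.sqrt (x t) - Real.sqrt θ|) l (𝓝 0) := by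
    have := (Real.continuous_sqrt.tendsto 0).comp h1
    simpa [Function.comp_def, Real.sqrt_sq_eq_abs] using this
  have h3 : Tendsto (fun t => Real.sqrt (x t) - Real.sqrt θ) l (𝓝 0) :=
    (tendsto_zero_iff_abs_tendsto_zero _).mpr h2
  have h4 : Tendsto (fun t => Real.sqrt (x t)) l (𝓝 (Real.sqrt θ)) := by
    have := h3.add_const (Real.sqrt θ)
    simpa using this
  have h5 : Tendsto (fun t => Real.sqrt (x t) * Real.sqrt (x t)) l
      (𝓝 (Real.sqrt θ * Real.sqrt θ)) := h4.mul h4
  rw [Real.mul_self_sqrt hθ.le] at h5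
  refine h5.congr' ?_
  filter_upwards [hx] with t ht
  exact Real.mul_self_sqrt ht.le

end Pool.Agent.Lib.MP_d8ef8f_an.TwoPatch
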