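import Pool.Agent.Lib.MP_d8ef8f_an.TwoPatch.Ratio

/-!
# Existence of the positive equilibrium of one species
-/

set_option autoImplicit false

open Set Filter Topology Finset

namespace Pool.Agent.Lib.MP_d8ef8f_an.TwoPatch

/-- For `a < b` with nonnegative weighted mean the one-species system has a positive
equilibrium. -/
theorem exists_eq {al be a b d : ℝ} (hal : 0 < al) (hbe : 0 < be) (hab : a < b) (hd : 0 < d)
    (hm : 0 ≤ be * a + al * b) :
    ∃ p : ℝ × ℝ, 0 < p.1 ∧ 0 < p.2 ∧ al * d * (p.2 - p.1) + p.1 * (a - p.1) = 0 ∧
      be * d * (p.1 - p.2) + p.2 * (b - p.2) = 0 := by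
  set H : ℝ → ℝ := fun r => r * (a + al * d * (r - 1)) - b - be * d * (1 / r - 1) with hH
  set R : ℝ := 1 + (|a| + |b| + 1) / (al * d) with hR
  have hald : 0 < al * d := by positivity
  have hR1 : 1 ≤ R := by
    rw [hR]
    have : 0 ≤ (|a| + |b| + 1) / (al * d) := by positivity
    linarith
  have hc : ContinuousOn H (Icc 1 R) := by
    apply ContinuousOn.sub
    · fun_prop
    · apply ContinuousOn.mul continuousOn_const
      apply ContinuousOn.sub _ continuousOn_const
      apply ContinuousOn.div continuousOn_const continuousOn_id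
      intro r hr
      have : (1:ℝ) ≤ r := hr.1
      simp only [id]
      linarith
  have h1 : H 1 ≤ 0 := by
    simp only [hH]
    norm_num
    linarith
  have h2 : 0 ≤ H R := by
    simp only [hH]
    have e1 : al * d * (R - 1) = |a| + |b| + 1 := by
      rw [hR]
      field_simp
      ring
    rw [e1]
    have h3 : |b| + 1 ≤ a + (|a| + |b| + 1) := by
      have := neg_abs_le a
      linarith
    have h4 : |b| + 1 ≤ R * (a + (|a| + |b| + 1)) := by
      have : 0 ≤ |b| := abs_nonneg b
      nlinarith
    have h5 : be * d * (1 / R - 1) ≤ 0 := by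
      have h6 : 1 / R ≤ 1 := by
        rw [div_le_one (by linarith)]
        exact hR1
      have : 0 < be * d := by positivity
      nlinarith
    have := le_abs_self b
    linarith
  obtain ⟨r, hr, hr0⟩ := intermediate_value_Icc hR1 hc ⟨h1, h2⟩
  have hr1 : 1 ≤ r := hr.1
  have hrpos : 0 < r := by linarith
  have hrne : r ≠ 1 := by
    rintro rfl
    have : H 1 < 0 := by
      simp only [hH]
      norm_num
      linarith
    linarith
  have hr1' : 1 < r := lt_of_le_of_ne hr1 (Ne.symm hrne)
  simp only [hH] at hr0
  set X := a + al * d * (r - 1) with hX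
  set Y := b + be * d * (1 / r - 1) with hY
  have hYX : Y = r * X := by
    rw [hX, hY]
    linarith
  have hXpos : 0 < X := by
    by_contra hcon
    push Not at hcon
    have h3 : Y ≤ 0 := by
      rw [hYX]
      exact mul_nonpos_of_nonneg_of_nonpos hrpos.le hcon
    have h4 : be * X + al * Y ≤ 0 := by nlinarith
    have h5 : be * X + al * Y = (be * a + al * b) + al * be * d * (r - 1) * (1 - 1 / r) := by
      rw [hX, hY]
      field_simp
      ring
    have h6 : 0 < 1 - 1 / r := by
      have : 1 / r < 1 := by
        rw [div_lt_one hrpos]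
        exact hr1'
      linarith
    have h7 : 0 < al * be * d * (r - 1) * (1 - 1 / r) := by
      have : 0 < r - 1 := by linarith
      positivity
    linarith
  refine ⟨(X, Y), hXpos, by rw [hYX]; positivity, ?_, ?_⟩
  · simp only
    rw [hYX]
    have : X = a + al * d * (r - 1) := hX
    calc al * d * (r * X - X) + X * (a - X)
        = X * (a + al * d * (r - 1) - X) := by ring
      _ = 0 := by rw [← this]; ring
  · simp only
    have h8 : X = Y / r := by
      rw [hYX]
      field_simp
    have : Y = b + be * d * (1 / r - 1) := hY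
    calc be * d * (X - Y) + Y * (b - Y)
        = be * d * (Y / r - Y) + Y * (b - Y) := by rw [← h8]
      _ = Y * (b + be * d * (1 / r - 1) - Y) := by
        field_simp
        ring
      _ = 0 := by rw [← this]; ring

end Pool.Agent.Lib.MP_d8ef8f_an.TwoPatch
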