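import Pool.Agent.Lib.MP_d8ef8f_an.TwoPatch.Basic

/-!
# The two-patch system: derivatives of the basic quantities
-/

set_option autoImplicit false

open Set Filter Topology Finset

namespace Pool.Agent.Lib.MP_d8ef8f_an.TwoPatch

noncomputable section

/-- Parameters of the two-patch model. -/
structure Par (N : ℕ) where
  d : Fin N → ℝ
  al : ℝ
  be : ℝ
  a : ℝ
  b : ℝ

/-- Standing assumptions. -/
structure Par.Ok {N : ℕ} (P : Par N) : Prop where
  al : 0 < P.al
  be : 0 < P.be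
  ab : P.a < P.b
  d : ∀ i, 0 < P.d i
  mono : StrictMono P.d
  mean : 0 ≤ P.be * P.a + P.al * P.b

/-- Solutions in coordinates on `[t0, ∞)`. -/
structure Flow {N : ℕ} (P : Par N) (t0 : ℝ) (x y : Fin N → ℝ → ℝ) : Prop where
  x0 : ∀ i t, t0 ≤ t → 0 ≤ x i t
  y0 : ∀ i t, t0 ≤ t → 0 ≤ y i t
  xc : ∀ i, ContinuousOn (x i) (Ici t0)
  yc : ∀ i, ContinuousOn (y i) (Ici t0)
  xd : ∀ i t, t0 ≤ t → HasDerivWithinAt (x i)
    (P.al * P.d i * (y i t - x i t) + x i t * (P.a - ∑ j, x j t)) (Ici t) t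
  yd : ∀ i t, t0 ≤ t → HasDerivWithinAt (y i)
    (P.be * P.d i * (x i t - y i t) + y i t * (P.b - ∑ j, y j t)) (Ici t) t

variable {N : ℕ} {P : Par N} {t0 : ℝ} {x y : Fin N → ℝ → ℝ}

theorem Flow.mono (h : Flow P t0 x y) {t1 : ℝ} (ht : t0 ≤ t1) : Flow P t1 x y where
  x0 := fun i t hh => h.x0 i t (ht.trans hh)
  y0 := fun i t hh => h.y0 i t (ht.trans hh)
  xc := fun i => (h.xc i).mono (Ici_subset_Ici.mpr ht)
  yc := fun i => (h.yc i).mono (Ici_subset_Ici.mpr ht)
  xd := fun i t hh => h.xd i t (ht.trans hh)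
  yd := fun i t hh => h.yd i t (ht.trans hh)

/-- Total densities. -/
def tX (x : Fin N → ℝ → ℝ) (t : ℝ) : ℝ := ∑ j, x j t

/-- The difference of the two growth rates. -/
def gg (P : Par N) (x y : Fin N → ℝ → ℝ) (t : ℝ) : ℝ :=
  (P.b - tX y t) - (P.a - tX x t)

/-- The total mass of species `i`. -/
def sm (P : Par N) (x y : Fin N → ℝ → ℝ) (i : Fin N) (t : ℝ) : ℝ :=
  x i t / P.al + y i t / P.be

/-- The fraction of species `i` living in the second patch. -/
def pr (P : Par N) (x y : Fin N → ℝ → ℝ) (i : Fin N) (t : ℝ) : ℝ :=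
  (y i t / P.be) / sm P x y i t

theorem Flow.tXc (h : Flow P t0 x y) : ContinuousOn (tX x) (Ici t0) := by
  unfold tX
  exact continuousOn_finsetSum _ fun i _ => h.xc i

theorem Flow.tYc (h : Flow P t0 x y) : ContinuousOn (tX y) (Ici t0) := by
  unfold tX
  exact continuousOn_finsetSum _ fun i _ => h.yc i

theorem Flow.tX0 (h : Flow P t0 x y) {t : ℝ} (ht : t0 ≤ t) : 0 ≤ tX x t :=
  Finset.sum_nonneg fun i _ => h.x0 i t ht

theorem Flow.tY0 (h : Flow P t0 x y) {t : ℝ} (ht : t0 ≤ t) : 0 ≤ tX y t :=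
  Finset.sum_nonneg fun i _ => h.y0 i t ht

theorem Flow.x_le (h : Flow P t0 x y) {t : ℝ} (ht : t0 ≤ t) (i : Fin N) : x i t ≤ tX x t :=
  Finset.single_le_sum (f := fun j => x j t) (fun j _ => h.x0 j t ht) (Finset.mem_univ i)

theorem Flow.y_le (h : Flow P t0 x y) {t : ℝ} (ht : t0 ≤ t) (i : Fin N) : y i t ≤ tX y t :=
  Finset.single_le_sum (f := fun j => y j t) (fun j _ => h.y0 j t ht) (Finset.mem_univ i)

theorem Flow.tXd (h : Flow P t0 x y) {t : ℝ} (ht : t0 ≤ t) :
    HasDerivWithinAt (tX x)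
      (P.al * (∑ i, P.d i * (y i t - x i t)) + tX x t * (P.a - tX x t)) (Ici t) t := by
  have h1 := HasDerivWithinAt.fun_sum (u := Finset.univ) fun i (_ : i ∈ Finset.univ) => h.xd i t ht
  have h2 : (∑ i, (P.al * P.d i * (y i t - x i t) + x i t * (P.a - ∑ j, x j t))) =
      P.al * (∑ i, P.d i * (y i t - x i t)) + tX x t * (P.a - tX x t) := by
    rw [Finset.sum_add_distrib, ← Finset.sum_mul, Finset.mul_sum]
    simp only [tX, mul_assoc]
  rw [h2] at h1
  exact h1

theorem Flow.tYd (h : Flow P t0 x y) {t : ℝ} (ht : t0 ≤ t) :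
    HasDerivWithinAt (tX y)
      (- P.be * (∑ i, P.d i * (y i t - x i t)) + tX y t * (P.b - tX y t)) (Ici t) t := by
  have h1 := HasDerivWithinAt.fun_sum (u := Finset.univ) fun i (_ : i ∈ Finset.univ) => h.yd i t ht
  have h2 : (∑ i, (P.be * P.d i * (x i t - y i t) + y i t * (P.b - ∑ j, y j t))) =
      - P.be * (∑ i, P.d i * (y i t - x i t)) + tX y t * (P.b - tX y t) := by
    rw [Finset.sum_add_distrib, ← Finset.sum_mul, Finset.mul_sum]
    simp only [tX]
    congr 1
    apply Finset.sum_congr rfl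
    intro i _
    ring
  rw [h2] at h1
  exact h1

theorem Flow.dd (h : Flow P t0 x y) {t : ℝ} (ht : t0 ≤ t) (i : Fin N) :
    HasDerivWithinAt (fun s => y i s - x i s)
      (- (P.al + P.be) * P.d i * (y i t - x i t) + x i t * (tX x t - P.a) +
        y i t * (P.b - tX y t)) (Ici t) t := by
  have h1 := (h.yd i t ht).sub (h.xd i t ht)
  have h2 : P.be * P.d i * (x i t - y i t) + y i t * (P.b - ∑ j, y j t) -
      (P.al * P.d i * (y i t - x i t) + x i t * (P.a - ∑ j, x j t)) =
      - (P.al + P.be) * P.d i * (y i t - x i t) + x i t * (tX x t - P.a) +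
        y i t * (P.b - tX y t) := by
    simp only [tX]
    ring
  rw [h2] at h1
  exact h1

theorem Flow.ggc (h : Flow P t0 x y) : ContinuousOn (gg P x y) (Ici t0) := by
  unfold gg
  exact (continuousOn_const.sub h.tYc).sub (continuousOn_const.sub h.tXc)

theorem Flow.ggd (h : Flow P t0 x y) {t : ℝ} (ht : t0 ≤ t) :
    HasDerivWithinAt (gg P x y)
      (- tX x t * (tX x t - P.a) - tX y t * (P.b - tX y t) +
        (P.al + P.be) * (∑ i, P.d i * (y i t - x i t))) (Ici t) t := by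
  have h1 := ((h.tYd ht).const_sub P.b).sub ((h.tXd ht).const_sub P.a)
  have h2 : -(- P.be * (∑ i, P.d i * (y i t - x i t)) + tX y t * (P.b - tX y t)) -
      -(P.al * (∑ i, P.d i * (y i t - x i t)) + tX x t * (P.a - tX x t)) =
      (- tX x t * (tX x t - P.a) - tX y t * (P.b - tX y t) +
        (P.al + P.be) * (∑ i, P.d i * (y i t - x i t))) := by ring
  rw [h2] at h1
  exact h1

theorem Flow.smc (h : Flow P t0 x y) (i : Fin N) : ContinuousOn (sm P x y i) (Ici t0) := by
  unfold sm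
  exact ((h.xc i).div_const _).add ((h.yc i).div_const _)

theorem Flow.sm0 (h : Flow P t0 x y) (hP : P.Ok) {t : ℝ} (ht : t0 ≤ t) (i : Fin N) :
    0 ≤ sm P x y i t :=
  add_nonneg (div_nonneg (h.x0 i t ht) hP.al.le) (div_nonneg (h.y0 i t ht) hP.be.le)

theorem Flow.smd (h : Flow P t0 x y) (hP : P.Ok) {t : ℝ} (ht : t0 ≤ t) (i : Fin N) :
    HasDerivWithinAt (sm P x y i)
      (x i t / P.al * (P.a - tX x t) + y i t / P.be * (P.b - tX y t)) (Ici t) t := by
  have h1 := ((h.xd i t ht).div_const P.al).add ((h.yd i t ht).div_const P.be)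
  have h2 : (P.al * P.d i * (y i t - x i t) + x i t * (P.a - ∑ j, x j t)) / P.al +
      (P.be * P.d i * (x i t - y i t) + y i t * (P.b - ∑ j, y j t)) / P.be =
      (x i t / P.al * (P.a - tX x t) + y i t / P.be * (P.b - tX y t)) := by
    have := hP.al.ne'
    have := hP.be.ne'
    simp only [tX]
    field_simp
    ring
  rw [h2] at h1
  exact h1

theorem pr_mul_sm {i : Fin N} {t : ℝ} (hs : sm P x y i t ≠ 0) :
    pr P x y i t * sm P x y i t = y i t / P.be := by
  unfold pr
  field_simp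

theorem x_eq (hP : P.Ok) {i : Fin N} {t : ℝ} (hs : sm P x y i t ≠ 0) :
    x i t = P.al * (1 - pr P x y i t) * sm P x y i t := by
  have h1 := pr_mul_sm hs
  have h2 : x i t / P.al + y i t / P.be = sm P x y i t := rfl
  have h3 : x i t / P.al = (1 - pr P x y i t) * sm P x y i t := by linarith
  rw [div_eq_iff hP.al.ne'] at h3
  rw [h3]
  ring

theorem y_eq (hP : P.Ok) {i : Fin N} {t : ℝ} (hs : sm P x y i t ≠ 0) :
    y i t = P.be * pr P x y i t * sm P x y i t := by
  have h1 := pr_mul_sm hs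
  rw [eq_div_iff hP.be.ne'] at h1
  rw [← h1]
  ring

theorem Flow.smd' (h : Flow P t0 x y) (hP : P.Ok) {t : ℝ} (ht : t0 ≤ t) (i : Fin N)
    (hs : sm P x y i t ≠ 0) :
    HasDerivWithinAt (sm P x y i)
      (sm P x y i t * (P.a - tX x t + gg P x y t * pr P x y i t)) (Ici t) t := by
  have h1 := h.smd hP ht i
  have h2 : x i t / P.al * (P.a - tX x t) + y i t / P.be * (P.b - tX y t) =
      sm P x y i t * (P.a - tX x t + gg P x y t * pr P x y i t) := by
    have h3 := pr_mul_sm hs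
    have h4 : x i t / P.al + y i t / P.be = sm P x y i t := rfl
    have h5 : x i t / P.al = sm P x y i t - pr P x y i t * sm P x y i t := by linarith
    rw [h5, ← h3]
    simp only [gg]
    ring
  rw [h2] at h1
  exact h1

theorem Flow.logsm (h : Flow P t0 x y) (hP : P.Ok) {t : ℝ} (ht : t0 ≤ t) (i : Fin N)
    (hs : 0 < sm P x y i t) :
    HasDerivWithinAt (fun s => Real.log (sm P x y i s))
      (P.a - tX x t + gg P x y t * pr P x y i t) (Ici t) t := by
  have h1 := (h.smd' hP ht i hs.ne').log hs.ne'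
  rwa [mul_div_cancel_left₀ _ hs.ne'] at h1

theorem Flow.prc (h : Flow P t0 x y) {i : Fin N} (hs : ∀ t, t0 ≤ t → 0 < sm P x y i t) :
    ContinuousOn (pr P x y i) (Ici t0) := by
  unfold pr
  exact ((h.yc i).div_const _).div (h.smc i) (fun t ht => (hs t ht).ne')

theorem alg_pr {al be d p s b Y a X : ℝ} (hbe : be ≠ 0) (hs : s ≠ 0) :
    ((be * d * (al * (1 - p) * s - be * p * s) + be * p * s * (b - Y)) / be * s -
      p * s * (s * (a - X + ((b - Y) - (a - X)) * p))) / s ^ 2 =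
      ((b - Y) - (a - X)) * p * (1 - p) + d * (al - (al + be) * p) := by
  field_simp
  ring

theorem Flow.prd (h : Flow P t0 x y) (hP : P.Ok) {t : ℝ} (ht : t0 ≤ t) (i : Fin N)
    (hs : 0 < sm P x y i t) :
    HasDerivWithinAt (pr P x y i)
      (gg P x y t * pr P x y i t * (1 - pr P x y i t) +
        P.d i * (P.al - (P.al + P.be) * pr P x y i t)) (Ici t) t := by
  have h1 := ((h.yd i t ht).div_const P.be).div (h.smd' hP ht i hs.ne') hs.ne'
  have hx := x_eq hP hs.ne'
  have hy := y_eq hP hs.ne'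
  have h3 := pr_mul_sm hs.ne'
  have h2 : ((P.be * P.d i * (x i t - y i t) + y i t * (P.b - ∑ j, y j t)) / P.be *
        sm P x y i t - y i t / P.be *
        (sm P x y i t * (P.a - tX x t + gg P x y t * pr P x y i t))) / sm P x y i t ^ 2 =
      gg P x y t * pr P x y i t * (1 - pr P x y i t) +
        P.d i * (P.al - (P.al + P.be) * pr P x y i t) := by
    rw [← h3]
    have e := alg_pr (al := P.al) (be := P.be) (d := P.d i) (p := pr P x y i t)
      (s := sm P x y i t) (b := P.b) (Y := tX y t) (a := P.a) (X := tX x t) hP.be.ne' hs.ne'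
    rw [← hx, ← hy] at e
    exact e
  rw [h2] at h1
  exact h1

end

end Pool.Agent.Lib.MP_d8ef8f_an.TwoPatch
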