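import Pool.Agent.Lib.MP_d8ef8f_an.TwoPatch.Ratio
import Pool.Agent.Lib.MP_d8ef8f_an.TwoPatch.Decay

/-!
# The entropy functional of one species
-/

set_option autoImplicit false

open Set Filter Topology Finset

namespace Pool.Agent.Lib.MP_d8ef8f_an.TwoPatch

noncomputable section

variable {N : ℕ} {P : Par N} {t0 : ℝ} {x y : Fin N → ℝ → ℝ}

/-- Entropy of species `k` relative to its equilibrium. -/
def Ly (P : Par N) (th : Fin N → ℝ × ℝ) (x y : Fin N → ℝ → ℝ) (k : Fin N) (t : ℝ) : ℝ :=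
  (th k).1 / P.al * (x k t - (th k).1 - (th k).1 * Real.log (x k t / (th k).1)) +
    (th k).2 / P.be * (y k t - (th k).2 - (th k).2 * Real.log (y k t / (th k).2))

/-- The forcing by the other species. -/
def Fo (P : Par N) (th : Fin N → ℝ × ℝ) (x y : Fin N → ℝ → ℝ) (k : Fin N) (t : ℝ) : ℝ :=
  1 / 2 * ((th k).1 / P.al * (tX x t - x k t) ^ 2 + (th k).2 / P.be * (tX y t - y k t) ^ 2)

theorem entropy_alg {al be d a b u v X Y p q : ℝ} (hal : 0 < al) (hbe : 0 < be) (hd : 0 < d)
    (hu : 0 < u) (hv : 0 < v) (hp : 0 < p) (hq : 0 < q)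
    (e1 : al * d * (q - p) + p * (a - p) = 0) (e2 : be * d * (p - q) + q * (b - q) = 0) :
    p / al * ((al * d * (v - u) + u * (a - X)) - p * ((al * d * (v - u) + u * (a - X)) / u)) +
      q / be * ((be * d * (u - v) + v * (b - Y)) - q * ((be * d * (u - v) + v * (b - Y)) / v)) ≤
    - (1 / 2) * (p / al * (u - p) ^ 2 + q / be * (v - q) ^ 2) +
      1 / 2 * (p / al * (X - u) ^ 2 + q / be * (Y - v) ^ 2) := by
  have e3 : p * a = p * p - al * d * (q - p) := by linarith
  have e4 : q * b = q * q - be * d * (p - q) := by linarith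
  have h1 : p / al * ((al * d * (v - u) + u * (a - X)) -
      p * ((al * d * (v - u) + u * (a - X)) / u)) =
      d * (p * v - q * u) * (1 - p / u) + p / al * ((u - p) * (p - X)) := by
    have h2 : p / al * ((al * d * (v - u) + u * (a - X)) -
      p * ((al * d * (v - u) + u * (a - X)) / u)) =
      (d * p * (v - u) + u / al * (p * a - p * X)) * (1 - p / u) := by
      field_simp
      try ring
    rw [h2, e3]
    field_simp
    ring
  have h3 : q / be * ((be * d * (u - v) + v * (b - Y)) -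
      q * ((be * d * (u - v) + v * (b - Y)) / v)) =
      d * (q * u - p * v) * (1 - q / v) + q / be * ((v - q) * (q - Y)) := by
    have h2 : q / be * ((be * d * (u - v) + v * (b - Y)) -
      q * ((be * d * (u - v) + v * (b - Y)) / v)) =
      (d * q * (u - v) + v / be * (q * b - q * Y)) * (1 - q / v) := by
      field_simp
      try ring
    rw [h2, e4]
    field_simp
    ring
  rw [h1, h3]
  have h4 : d * (p * v - q * u) * (1 - p / u) + d * (q * u - p * v) * (1 - q / v) =
      - (d * (p * v - q * u) ^ 2 / (u * v)) := by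
    field_simp
    ring
  have h5 : 0 ≤ d * (p * v - q * u) ^ 2 / (u * v) := by positivity
  have h6 : (u - p) * (p - X) ≤ - (1 / 2) * (u - p) ^ 2 + 1 / 2 * (X - u) ^ 2 := by
    nlinarith [sq_nonneg (p - X)]
  have h7 : (v - q) * (q - Y) ≤ - (1 / 2) * (v - q) ^ 2 + 1 / 2 * (Y - v) ^ 2 := by
    nlinarith [sq_nonneg (q - Y)]
  have h8 : 0 < p / al := by positivity
  have h9 : 0 < q / be := by positivity
  have h10 := mul_le_mul_of_nonneg_left h6 h8.le
  have h11 := mul_le_mul_of_nonneg_left h7 h9.le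
  linarith

/-- The derivative of the entropy functional. -/
theorem Flow.Ly_deriv (h : Flow P t0 x y) (hP : P.Ok) {th : Fin N → ℝ × ℝ} (hth : P.IsEq th)
    {t : ℝ} (ht : t0 ≤ t) (k : Fin N) {c : ℝ} (hc : 0 < c) (hx : c ≤ x k t) (hy : c ≤ y k t) :
    ∃ L' : ℝ, HasDerivWithinAt (Ly P th x y k) L' (Ici t) t ∧
      L' ≤ - (c / 2) * Ly P th x y k t + Fo P th x y k t := by
  have hx0 : 0 < x k t := lt_of_lt_of_le hc hx
  have hy0 : 0 < y k t := lt_of_lt_of_le hc hy
  have hp := hth.p1 k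
  have hq := hth.p2 k
  have h1 := h.xd k t ht
  have h2 := h.yd k t ht
  have h3 := (h1.div_const (th k).1).log (by positivity)
  have h4 := (h2.div_const (th k).2).log (by positivity)
  have h5 := (((h1.sub_const (th k).1).sub (h3.const_mul (th k).1)).const_mul
    ((th k).1 / P.al)).add (((h2.sub_const (th k).2).sub (h4.const_mul (th k).2)).const_mul
    ((th k).2 / P.be))
  refine ⟨_, h5, ?_⟩
  have halg := entropy_alg (al := P.al) (be := P.be) (d := P.d k) (a := P.a) (b := P.b)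
    (u := x k t) (v := y k t) (X := tX x t) (Y := tX y t) (p := (th k).1) (q := (th k).2)
    hP.al hP.be (hP.d k) hx0 hy0 hp hq (hth.e1 k) (hth.e2 k)
  have e3 : ∑ j, x j t = tX x t := rfl
  have e4 : ∑ j, y j t = tX y t := rfl
  rw [e3, e4]
  have e5 : ∀ w z v : ℝ, v ≠ 0 → z ≠ 0 → w / v / (z / v) = w / z := by
    intro w z v hv hz
    field_simp
  rw [e5 _ _ _ hp.ne' hx0.ne', e5 _ _ _ hq.ne' hy0.ne']
  refine halg.trans ?_
  have h6 := entropy_le hc hx hp
  have h7 := entropy_le hc hy hq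
  have h8 : 0 < (th k).1 / P.al := div_pos hp hP.al
  have h9 : 0 < (th k).2 / P.be := div_pos hq hP.be
  have h10 := mul_le_mul_of_nonneg_left h6 h8.le
  have h11 := mul_le_mul_of_nonneg_left h7 h9.le
  unfold Ly Fo
  nlinarith

theorem Ly_nonneg (hP : P.Ok) {th : Fin N → ℝ × ℝ} (hth : P.IsEq th) {t : ℝ} (k : Fin N)
    (hx : 0 < x k t) (hy : 0 < y k t) : 0 ≤ Ly P th x y k t := by
  have h1 := (sq_nonneg _).trans (sqrt_le_entropy hx (hth.p1 k))
  have h2 := (sq_nonneg _).trans (sqrt_le_entropy hy (hth.p2 k))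
  exact add_nonneg (mul_nonneg (div_nonneg (hth.p1 k).le hP.al.le) h1)
    (mul_nonneg (div_nonneg (hth.p2 k).le hP.be.le) h2)

theorem tendsto_of_Ly (hP : P.Ok) {th : Fin N → ℝ × ℝ} (hth : P.IsEq th) (k : Fin N)
    {l : Filter ℝ} (hx : ∀ᶠ t in l, 0 < x k t) (hy : ∀ᶠ t in l, 0 < y k t)
    (h : Tendsto (Ly P th x y k) l (𝓝 0)) :
    Tendsto (x k) l (𝓝 (th k).1) ∧ Tendsto (y k) l (𝓝 (th k).2) := by
  have hp := hth.p1 k
  have hq := hth.p2 k
  have h8 : 0 < (th k).1 / P.al := div_pos hp hP.al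
  have h9 : 0 < (th k).2 / P.be := div_pos hq hP.be
  constructor
  · apply tendsto_of_entropy hp hx
    have h1 : Tendsto (fun t => ((th k).1 / P.al)⁻¹ * Ly P th x y k t) l (𝓝 0) := by
      simpa using h.const_mul ((th k).1 / P.al)⁻¹
    refine tendsto_of_tendsto_of_tendsto_of_le_of_le' tendsto_const_nhds h1 ?_ ?_
    · filter_upwards [hx] with t ht
      exact (sq_nonneg _).trans (sqrt_le_entropy ht hp)
    · filter_upwards [hx, hy] with t ht ht'
      have h2 := (sq_nonneg _).trans (sqrt_le_entropy ht' hq)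
      have h3 : (th k).1 / P.al * (x k t - (th k).1 - (th k).1 * Real.log (x k t / (th k).1)) ≤
          Ly P th x y k t := by
        unfold Ly
        linarith [mul_nonneg h9.le h2]
      calc x k t - (th k).1 - (th k).1 * Real.log (x k t / (th k).1)
          = ((th k).1 / P.al)⁻¹ * ((th k).1 / P.al *
            (x k t - (th k).1 - (th k).1 * Real.log (x k t / (th k).1))) := by
            rw [← mul_assoc, inv_mul_cancel₀ h8.ne', one_mul]
        _ ≤ ((th k).1 / P.al)⁻¹ * Ly P th x y k t :=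
            mul_le_mul_of_nonneg_left h3 (inv_nonneg.mpr h8.le)
  · apply tendsto_of_entropy hq hy
    have h1 : Tendsto (fun t => ((th k).2 / P.be)⁻¹ * Ly P th x y k t) l (𝓝 0) := by
      simpa using h.const_mul ((th k).2 / P.be)⁻¹
    refine tendsto_of_tendsto_of_tendsto_of_le_of_le' tendsto_const_nhds h1 ?_ ?_
    · filter_upwards [hy] with t ht
      exact (sq_nonneg _).trans (sqrt_le_entropy ht hq)
    · filter_upwards [hx, hy] with t ht' ht
      have h2 := (sq_nonneg _).trans (sqrt_le_entropy ht' hp)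
      have h3 : (th k).2 / P.be * (y k t - (th k).2 - (th k).2 * Real.log (y k t / (th k).2)) ≤
          Ly P th x y k t := by
        unfold Ly
        linarith [mul_nonneg h8.le h2]
      calc y k t - (th k).2 - (th k).2 * Real.log (y k t / (th k).2)
          = ((th k).2 / P.be)⁻¹ * ((th k).2 / P.be *
            (y k t - (th k).2 - (th k).2 * Real.log (y k t / (th k).2))) := by
            rw [← mul_assoc, inv_mul_cancel₀ h9.ne', one_mul]
        _ ≤ ((th k).2 / P.be)⁻¹ * Ly P th x y k t :=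
            mul_le_mul_of_nonneg_left h3 (inv_nonneg.mpr h9.le)

theorem Fo_tendsto {th : Fin N → ℝ × ℝ} (k : Fin N) {l : Filter ℝ}
    (hx : Tendsto (fun t => tX x t - x k t) l (𝓝 0))
    (hy : Tendsto (fun t => tX y t - y k t) l (𝓝 0)) :
    Tendsto (Fo P th x y k) l (𝓝 0) := by
  unfold Fo
  have := (((hx.pow 2).const_mul ((th k).1 / P.al)).add
    ((hy.pow 2).const_mul ((th k).2 / P.be))).const_mul (1 / 2)
  simpa using this

theorem Flow.Lyc (h : Flow P t0 x y) {th : Fin N → ℝ × ℝ} (hth : P.IsEq th) (k : Fin N)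
    (hx : ∀ t, t0 ≤ t → 0 < x k t) (hy : ∀ t, t0 ≤ t → 0 < y k t) :
    ContinuousOn (Ly P th x y k) (Ici t0) := by
  unfold Ly
  have hp := hth.p1 k
  have hq := hth.p2 k
  have h1 : ContinuousOn (fun t => Real.log (x k t / (th k).1)) (Ici t0) :=
    ((h.xc k).div_const _).log fun t ht => (div_pos (hx t ht) hp).ne'
  have h2 : ContinuousOn (fun t => Real.log (y k t / (th k).2)) (Ici t0) :=
    ((h.yc k).div_const _).log fun t ht => (div_pos (hy t ht) hq).ne'
  exact (continuousOn_const.mul (((h.xc k).sub continuousOn_const).sub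
    (continuousOn_const.mul h1))).add (continuousOn_const.mul
    (((h.yc k).sub continuousOn_const).sub (continuousOn_const.mul h2)))

/-- Forward convergence of the dominating species. -/
theorem Flow.conv_top (h : Flow P t0 x y) (hP : P.Ok) {th : Fin N → ℝ × ℝ} (hth : P.IsEq th)
    (k : Fin N) {c : ℝ} (hc : 0 < c) (hx : ∀ t, t0 ≤ t → c ≤ x k t)
    (hy : ∀ t, t0 ≤ t → c ≤ y k t)
    (hx' : Tendsto (fun t => tX x t - x k t) atTop (𝓝 0))
    (hy' : Tendsto (fun t => tX y t - y k t) atTop (𝓝 0)) :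
    Tendsto (x k) atTop (𝓝 (th k).1) ∧ Tendsto (y k) atTop (𝓝 (th k).2) := by
  have hx0 : ∀ t, t0 ≤ t → 0 < x k t := fun t ht => lt_of_lt_of_le hc (hx t ht)
  have hy0 : ∀ t, t0 ≤ t → 0 < y k t := fun t ht => lt_of_lt_of_le hc (hy t ht)
  have hex : ∀ s : ℝ, ∃ v' : ℝ, t0 ≤ s → (HasDerivWithinAt (Ly P th x y k) v' (Ici s) s ∧
      v' ≤ - (c / 2) * Ly P th x y k s + Fo P th x y k s) := by
    intro s
    by_cases hs : t0 ≤ s
    · obtain ⟨v, hv⟩ := h.Ly_deriv hP hth hs k hc (hx s hs) (hy s hs)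
      exact ⟨v, fun _ => hv⟩
    · exact ⟨0, fun h => absurd h hs⟩
  choose v' hv' using hex
  refine tendsto_of_Ly hP hth k ?_ ?_ ?_
  · filter_upwards [eventually_ge_atTop t0] with t ht using hx0 t ht
  · filter_upwards [eventually_ge_atTop t0] with t ht using hy0 t ht
  · exact decay_top (f := Ly P th x y k) (f' := v') (E := Fo P th x y k) (t0 := t0)
      (k := c / 2) (by positivity) (h.Lyc hth k hx0 hy0) (fun t ht => (hv' t ht).1)
      (fun t ht => (hv' t ht).2) (Fo_tendsto k hx' hy')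
      (fun t ht => Ly_nonneg hP hth k (hx0 t ht) (hy0 t ht))

theorem Ly_le {P : Par N} (hP : P.Ok) {th : Fin N → ℝ × ℝ} (hth : P.IsEq th) (k : Fin N)
    {c K t : ℝ} (hc : 0 < c) (hx : c ≤ x k t) (hy : c ≤ y k t) (hxK : x k t ≤ K)
    (hyK : y k t ≤ K) :
    Ly P th x y k t ≤ ((th k).1 / P.al * (K + (th k).1) ^ 2 +
      (th k).2 / P.be * (K + (th k).2) ^ 2) / c := by
  have hp := hth.p1 k
  have hq := hth.p2 k
  have h8 : 0 < (th k).1 / P.al := div_pos hp hP.al
  have h9 : 0 < (th k).2 / P.be := div_pos hq hP.be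
  rw [le_div_iff₀ hc]
  have h6 := entropy_le hc hx hp
  have h7 := entropy_le hc hy hq
  have h1 : (x k t - (th k).1) ^ 2 ≤ (K + (th k).1) ^ 2 := by
    apply sq_le_sq'
    · linarith
    · linarith
  have h2 : (y k t - (th k).2) ^ 2 ≤ (K + (th k).2) ^ 2 := by
    apply sq_le_sq'
    · linarith
    · linarith
  have h10 := mul_le_mul_of_nonneg_left (h6.trans h1) h8.le
  have h11 := mul_le_mul_of_nonneg_left (h7.trans h2) h9.le
  unfold Ly
  nlinarith

/-- Entire solutions. -/
def Entire (P : Par N) (x y : Fin N → ℝ → ℝ) : Prop := ∀ t0, Flow P t0 x y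

theorem Entire.Ly_data (h : Entire P x y) (hP : P.Ok) {th : Fin N → ℝ × ℝ} (hth : P.IsEq th)
    (k : Fin N) {c : ℝ} (hc : 0 < c) (hx : ∀ t, c ≤ x k t) (hy : ∀ t, c ≤ y k t) :
    ∃ v' : ℝ → ℝ, Continuous (Ly P th x y k) ∧
      (∀ t, HasDerivWithinAt (Ly P th x y k) (v' t) (Ici t) t) ∧
      (∀ t, v' t ≤ - (c / 2) * Ly P th x y k t + Fo P th x y k t) ∧
      ∀ t, 0 ≤ Ly P th x y k t := by
  have hx0 : ∀ t, 0 < x k t := fun t => lt_of_lt_of_le hc (hx t)
  have hy0 : ∀ t, 0 < y k t := fun t => lt_of_lt_of_le hc (hy t)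
  have hex : ∀ s : ℝ, ∃ v' : ℝ, (HasDerivWithinAt (Ly P th x y k) v' (Ici s) s ∧
      v' ≤ - (c / 2) * Ly P th x y k s + Fo P th x y k s) := fun s =>
    (h s).Ly_deriv hP hth (le_refl s) k hc (hx s) (hy s)
  choose v' hv' using hex
  refine ⟨v', ?_, fun t => (hv' t).1, fun t => (hv' t).2,
    fun t => Ly_nonneg hP hth k (hx0 t) (hy0 t)⟩
  rw [continuous_iff_continuousAt]
  intro t
  have := (h (t - 1)).Lyc hth k (fun s _ => hx0 s) (fun s _ => hy0 s)
  exact this.continuousAt (Ici_mem_nhds (by linarith))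

/-- Backward convergence of the dominating species. -/
theorem Entire.conv_bot (h : Entire P x y) (hP : P.Ok) {th : Fin N → ℝ × ℝ} (hth : P.IsEq th)
    (k : Fin N) {c K t1 : ℝ} (hc : 0 < c) (hx0 : ∀ t, 0 < x k t) (hy0 : ∀ t, 0 < y k t)
    (hx : ∀ t, t ≤ t1 → c ≤ x k t) (hy : ∀ t, t ≤ t1 → c ≤ y k t)
    (hxK : ∀ t, x k t ≤ K) (hyK : ∀ t, y k t ≤ K)
    (hx' : Tendsto (fun t => tX x t - x k t) atBot (𝓝 0))
    (hy' : Tendsto (fun t => tX y t - y k t) atBot (𝓝 0)) :
    Tendsto (x k) atBot (𝓝 (th k).1) ∧ Tendsto (y k) atBot (𝓝 (th k).2) := by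
  have hex : ∀ s : ℝ, ∃ v' : ℝ, HasDerivWithinAt (Ly P th x y k) v' (Ici s) s ∧
      (s ≤ t1 → v' ≤ - (c / 2) * Ly P th x y k s + Fo P th x y k s) := by
    intro s
    by_cases hs : s ≤ t1
    · obtain ⟨v, hv⟩ := (h s).Ly_deriv hP hth (le_refl s) k hc (hx s hs) (hy s hs)
      exact ⟨v, hv.1, fun _ => hv.2⟩
    · obtain ⟨v, hv⟩ := (h s).Ly_deriv hP hth (le_refl s) k (lt_min (hx0 s) (hy0 s))
        (min_le_left _ _) (min_le_right _ _)
      exact ⟨v, hv.1, fun h => absurd h hs⟩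
  choose v' hv' using hex
  have hcont : Continuous (Ly P th x y k) := by
    rw [continuous_iff_continuousAt]
    intro t
    have := (h (t - 1)).Lyc hth k (fun s _ => hx0 s) (fun s _ => hy0 s)
    exact this.continuousAt (Ici_mem_nhds (by linarith))
  refine tendsto_of_Ly hP hth k (Eventually.of_forall hx0) (Eventually.of_forall hy0) ?_
  exact decay_bot (f := Ly P th x y k) (f' := v') (E := Fo P th x y k) (t1 := t1)
    (k := c / 2) (by positivity) hcont (fun t => (hv' t).1) (fun t ht => (hv' t).2 ht)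
    (Fo_tendsto k hx' hy')
    (fun t _ => Ly_nonneg hP hth k (hx0 t) (hy0 t))
    (fun t ht => Ly_le hP hth k hc (hx t ht) (hy t ht) (hxK t) (hyK t))

/-- A single-species entire solution bounded away from `0` and `∞` is the equilibrium. -/
theorem Entire.const (h : Entire P x y) (hP : P.Ok) {th : Fin N → ℝ × ℝ} (hth : P.IsEq th)
    (k : Fin N) {c K : ℝ} (hc : 0 < c) (hx : ∀ t, c ≤ x k t) (hy : ∀ t, c ≤ y k t)
    (hxK : ∀ t, x k t ≤ K) (hyK : ∀ t, y k t ≤ K)
    (hx' : ∀ t, tX x t = x k t) (hy' : ∀ t, tX y t = y k t) (t : ℝ) :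
    x k t = (th k).1 ∧ y k t = (th k).2 := by
  obtain ⟨v', hcont, hd, hle, hnn⟩ := h.Ly_data hP hth k hc hx hy
  have hz : ∀ t, Ly P th x y k t = 0 := fun t =>
    zero_of_decay (f := Ly P th x y k) (f' := v') (k := c / 2) (by positivity) hcont hd
      (fun s => by
        have h1 := hle s
        have h2 : Fo P th x y k s = 0 := by
          unfold Fo
          rw [hx', hy']
          simp
        linarith) hnn (fun s => Ly_le hP hth k hc (hx s) (hy s) (hxK s) (hyK s)) t
  have h1 := tendsto_of_Ly (l := 𝓝 t) hP hth k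
    (Eventually.of_forall fun t => lt_of_lt_of_le hc (hx t))
    (Eventually.of_forall fun t => lt_of_lt_of_le hc (hy t))
    (by
      have : Ly P th x y k = fun _ => 0 := funext hz
      rw [this]
      exact tendsto_const_nhds)
  have hcx : ContinuousAt (x k) t :=
    ((h (t - 1)).xc k).continuousAt (Ici_mem_nhds (by linarith))
  have hcy : ContinuousAt (y k) t :=
    ((h (t - 1)).yc k).continuousAt (Ici_mem_nhds (by linarith))
  exact ⟨tendsto_nhds_unique hcx h1.1, tendsto_nhds_unique hcy h1.2⟩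

end

end Pool.Agent.Lib.MP_d8ef8f_an.TwoPatch
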