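import Pool.Agent.Lib.MP_d8ef8f_an.TwoPatch.Core
import Pool.Agent.Lib.MP_d8ef8f_an.TwoPatch.Lyap

/-!
# Forward and backward limits of the two-patch system
-/

set_option autoImplicit false

open Set Filter Topology Finset

namespace Pool.Agent.Lib.MP_d8ef8f_an.TwoPatch

noncomputable section

variable {N : ℕ} {P : Par N} {t0 : ℝ} {x y : Fin N → ℝ → ℝ}

/-- The total mass. -/
def tM (P : Par N) (x y : Fin N → ℝ → ℝ) (t : ℝ) : ℝ := tX x t / P.al + tX y t / P.be

theorem tM_eq (t : ℝ) : tM P x y t = ∑ i, sm P x y i t := by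
  unfold tM tX sm
  rw [Finset.sum_add_distrib, Finset.sum_div, Finset.sum_div]

theorem Flow.tMd (h : Flow P t0 x y) (hP : P.Ok) {t : ℝ} (ht : t0 ≤ t) :
    HasDerivWithinAt (tM P x y)
      (tX x t / P.al * (P.a - tX x t) + tX y t / P.be * (P.b - tX y t)) (Ici t) t := by
  have h1 := ((h.tXd ht).div_const P.al).add ((h.tYd ht).div_const P.be)
  refine h1.congr_deriv ?_
  have := hP.al.ne'
  have := hP.be.ne'
  field_simp
  ring

/-- Forward solutions are bounded. -/
theorem Flow.bounded (h : Flow P t0 x y) (hP : P.Ok) :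
    ∃ K : ℝ, 0 ≤ K ∧ (∀ t, t0 ≤ t → tX x t ≤ K) ∧ ∀ t, t0 ≤ t → tX y t ≤ K := by
  have hal := hP.al
  have hbe := hP.be
  set q := 1 / P.al + 1 / P.be with hq
  have hq0 : 0 < q := by positivity
  set B := max (tM P x y t0) (|P.b| * q + 1) with hB
  have hB1 : tM P x y t0 ≤ B := le_max_left _ _
  have hB2 : |P.b| * q + 1 ≤ B := le_max_right _ _
  have hB0 : 0 < B := lt_of_lt_of_le (by positivity) hB2
  have hc : ContinuousOn (tM P x y) (Ici t0) := (h.tXc.div_const _).add (h.tYc.div_const _)
  have hall : ∀ t, t0 ≤ t → tM P x y t ≤ B := by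
    intro t ht
    have := stay (f := fun s => - tM P x y s) (c := - B) hc.neg
      (fun s hs => (h.tMd hP hs).neg) (by simpa using hB1) (fun s hs he => ?_) t ht
    · simpa using this
    · have he' : tM P x y s = B := by simpa using he
      have h1 := h.tX0 hs
      have h2 := h.tY0 hs
      have h3 : tX x s / P.al * (P.a - tX x s) + tX y s / P.be * (P.b - tX y s) ≤
          |P.b| * B - B ^ 2 / q := by
        have h4 : tX x s / P.al * (P.a - tX x s) ≤
            |P.b| * (tX x s / P.al) - tX x s ^ 2 / P.al := by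
          have h5 : P.a ≤ |P.b| := hP.ab.le.trans (le_abs_self _)
          have h6 : tX x s / P.al * P.a ≤ tX x s / P.al * |P.b| :=
            mul_le_mul_of_nonneg_left h5 (by positivity)
          have h7 : tX x s / P.al * (P.a - tX x s) =
            tX x s / P.al * P.a - tX x s ^ 2 / P.al := by ring
          linarith
        have h4' : tX y s / P.be * (P.b - tX y s) ≤
            |P.b| * (tX y s / P.be) - tX y s ^ 2 / P.be := by
          have h5 : P.b ≤ |P.b| := le_abs_self _
          have h6 : tX y s / P.be * P.b ≤ tX y s / P.be * |P.b| :=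
            mul_le_mul_of_nonneg_left h5 (by positivity)
          have h7 : tX y s / P.be * (P.b - tX y s) =
            tX y s / P.be * P.b - tX y s ^ 2 / P.be := by ring
          linarith
        have h8 : B ^ 2 / q ≤ tX x s ^ 2 / P.al + tX y s ^ 2 / P.be := by
          rw [← he', hq]
          unfold tM
          rw [div_le_iff₀ (by positivity)]
          have e1 : (tX x s ^ 2 / P.al + tX y s ^ 2 / P.be) * (1 / P.al + 1 / P.be) -
              (tX x s / P.al + tX y s / P.be) ^ 2 =
              (tX x s - tX y s) ^ 2 / (P.al * P.be) := by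
            field_simp
            ring
          have e2 : 0 ≤ (tX x s - tX y s) ^ 2 / (P.al * P.be) := by positivity
          linarith
        have h9 : |P.b| * B = |P.b| * (tX x s / P.al) + |P.b| * (tX y s / P.be) := by
          rw [← he']
          unfold tM
          ring
        linarith
      have h10 : |P.b| * B - B ^ 2 / q < 0 := by
        have h11 : B ^ 2 / q = B * (B / q) := by ring
        have h12 : |P.b| < B / q := by
          rw [lt_div_iff₀ hq0]
          linarith
        rw [h11]
        nlinarith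
      linarith
  refine ⟨(P.al + P.be) * B, by positivity, fun t ht => ?_, fun t ht => ?_⟩
  · have h1 := hall t ht
    have h2 := h.tX0 ht
    have h3 := h.tY0 ht
    have h4 : tX x t / P.al ≤ B := by
      have : 0 ≤ tX y t / P.be := by positivity
      unfold tM at h1
      linarith
    rw [div_le_iff₀ hal] at h4
    nlinarith
  · have h1 := hall t ht
    have h2 := h.tX0 ht
    have h3 := h.tY0 ht
    have h4 : tX y t / P.be ≤ B := by
      have : 0 ≤ tX x t / P.al := by positivity
      unfold tM at h1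
      linarith
    rw [div_le_iff₀ hbe] at h4
    nlinarith

theorem Flow.sm_bound (h : Flow P t0 x y) (hP : P.Ok) {K t : ℝ} (ht : t0 ≤ t)
    (hX : tX x t ≤ K) (hY : tX y t ≤ K) (i : Fin N) :
    sm P x y i t ≤ K * (1 / P.al + 1 / P.be) := by
  have h1 := (h.x_le ht i).trans hX
  have h2 := (h.y_le ht i).trans hY
  have h3 := div_le_div_of_nonneg_right h1 hP.al.le
  have h4 := div_le_div_of_nonneg_right h2 hP.be.le
  have h5 : K * (1 / P.al + 1 / P.be) = K / P.al + K / P.be := by ring
  unfold sm
  linarith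

/-- If all species but `k` vanish along `l` and the weighted mass is bounded below, then the mass
of species `k` is bounded below. -/
theorem sm_low (hP : P.Ok) {th : Fin N → ℝ × ℝ}
    {m0 m1 e0 : ℝ} (hm1 : 0 < m1)
    (hm : ∀ i, m0 ≤ (th i).1 ∧ m0 ≤ (th i).2 ∧ (th i).1 ≤ m1 ∧ (th i).2 ≤ m1) (he0 : 0 < e0)
    {l : Filter ℝ} (k : Fin N) (hx : ∀ᶠ t in l, ∀ i, 0 ≤ x i t) (hy : ∀ᶠ t in l, ∀ i, 0 ≤ y i t)
    (hE : ∀ᶠ t in l, e0 ≤ Ew P th x y t)
    (hz : ∀ j, j ≠ k → Tendsto (sm P x y j) l (𝓝 0)) :
    ∀ᶠ t in l, e0 / (2 * m1) ≤ sm P x y k t := by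
  have h1 : Tendsto (fun t => ∑ j ∈ Finset.univ.erase k, sm P x y j t) l (𝓝 0) := by
    have : Tendsto (fun t => ∑ j ∈ Finset.univ.erase k, sm P x y j t) l
        (𝓝 (∑ j ∈ Finset.univ.erase k, (0:ℝ))) :=
      tendsto_finsetSum _ fun j hj => hz j (Finset.ne_of_mem_erase hj)
    simpa using this
  have h2 : ∀ᶠ t in l, ∑ j ∈ Finset.univ.erase k, sm P x y j t ≤ e0 / (2 * m1) :=
    h1.eventually (ge_mem_nhds (by positivity))
  filter_upwards [hx, hy, hE, h2] with t hxt hyt hEt h2t
  have h3 : Ew P th x y t ≤ m1 * ∑ i, sm P x y i t := by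
    unfold Ew
    rw [Finset.mul_sum]
    apply Finset.sum_le_sum
    intro i _
    obtain ⟨h3, h4, h5, h6⟩ := hm i
    have h7 := div_nonneg (hxt i) hP.al.le
    have h8 := div_nonneg (hyt i) hP.be.le
    have e1 : (th i).1 / P.al * x i t = (th i).1 * (x i t / P.al) := by ring
    have e2 : (th i).2 / P.be * y i t = (th i).2 * (y i t / P.be) := by ring
    rw [e1, e2]
    unfold sm
    nlinarith
  have h4 : ∑ i, sm P x y i t = sm P x y k t + ∑ j ∈ Finset.univ.erase k, sm P x y j t :=
    (Finset.add_sum_erase _ _ (Finset.mem_univ k)).symm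
  have h5 : e0 / m1 ≤ ∑ i, sm P x y i t := by
    rw [div_le_iff₀ hm1]
    linarith
  have h6 : e0 / m1 = e0 / (2 * m1) + e0 / (2 * m1) := by
    field_simp
    ring
  linarith

/-- Vanishing mass means vanishing densities. -/
theorem xy_of_sm (hP : P.Ok) {l : Filter ℝ} {j : Fin N}
    (hx : ∀ᶠ t in l, 0 ≤ x j t) (hy : ∀ᶠ t in l, 0 ≤ y j t)
    (h : Tendsto (sm P x y j) l (𝓝 0)) :
    Tendsto (x j) l (𝓝 0) ∧ Tendsto (y j) l (𝓝 0) := by
  constructor
  · have h1 : Tendsto (fun t => P.al * sm P x y j t) l (𝓝 0) := by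
      simpa using h.const_mul P.al
    refine tendsto_of_tendsto_of_tendsto_of_le_of_le' tendsto_const_nhds h1 hx ?_
    filter_upwards [hx, hy] with t h2 h3
    have h4 := div_nonneg h3 hP.be.le
    have h5 : P.al * (x j t / P.al) = x j t := by
      field_simp [hP.al.ne']
    unfold sm
    have := mul_nonneg hP.al.le h4
    linarith [mul_add P.al (x j t / P.al) (y j t / P.be)]
  · have h1 : Tendsto (fun t => P.be * sm P x y j t) l (𝓝 0) := by
      simpa using h.const_mul P.be
    refine tendsto_of_tendsto_of_tendsto_of_le_of_le' tendsto_const_nhds h1 hy ?_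
    filter_upwards [hx, hy] with t h2 h3
    have h4 := div_nonneg h2 hP.al.le
    have h5 : P.be * (y j t / P.be) = y j t := by
      field_simp [hP.be.ne']
    unfold sm
    have := mul_nonneg hP.be.le h4
    linarith [mul_add P.be (x j t / P.al) (y j t / P.be)]

theorem rest_tendsto {l : Filter ℝ} {k : Fin N} (h : ∀ j, j ≠ k → Tendsto (x j) l (𝓝 0)) :
    Tendsto (fun t => tX x t - x k t) l (𝓝 0) := by
  have h1 : Tendsto (fun t => ∑ j ∈ Finset.univ.erase k, x j t) l (𝓝 0) := by
    have : Tendsto (fun t => ∑ j ∈ Finset.univ.erase k, x j t) l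
        (𝓝 (∑ j ∈ Finset.univ.erase k, (0:ℝ))) :=
      tendsto_finsetSum _ fun j hj => h j (Finset.ne_of_mem_erase hj)
    simpa using this
  refine h1.congr fun t => ?_
  have := Finset.add_sum_erase Finset.univ (fun j => x j t) (Finset.mem_univ k)
  simp only [tX]
  linarith

/-- **Forward limits.** -/
theorem Flow.forward (h : Flow P t0 x y) (hP : P.Ok) {th : Fin N → ℝ × ℝ} (hth : P.IsEq th)
    (k : Fin N) (hk : 0 < sm P x y k t0) (hmin : ∀ j, j < k → sm P x y j t0 = 0) :
    (Tendsto (x k) atTop (𝓝 (th k).1) ∧ Tendsto (y k) atTop (𝓝 (th k).2)) ∧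
      ∀ j, j ≠ k → Tendsto (x j) atTop (𝓝 0) ∧ Tendsto (y j) atTop (𝓝 0) := by
  obtain ⟨K, hK, hX, hY⟩ := h.bounded hP
  obtain ⟨m0, m1, hm0, hm1, hm⟩ := exists_thbounds hth
  have hal := hP.al
  have hbe := hP.be
  set e1 := m0 ^ 2 / (2 * (P.al + P.be)) with he1
  have he1' : 0 < e1 := by positivity
  have hE0 : 0 < Ew P th x y t0 := by
    have h1 : (th k).1 / P.al * x k t0 + (th k).2 / P.be * y k t0 ≤ Ew P th x y t0 :=
      Finset.single_le_sum (f := fun i => (th i).1 / P.al * x i t0 + (th i).2 / P.be * y i t0)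
        (fun i _ => add_nonneg
          (mul_nonneg (div_nonneg (hth.p1 i).le hal.le) (h.x0 i t0 (le_refl _)))
          (mul_nonneg (div_nonneg (hth.p2 i).le hbe.le) (h.y0 i t0 (le_refl _))))
        (Finset.mem_univ k)
    have h2 : m0 * sm P x y k t0 ≤ (th k).1 / P.al * x k t0 + (th k).2 / P.be * y k t0 := by
      obtain ⟨h3, h4, -, -⟩ := hm k
      have h7 := div_nonneg (h.x0 k t0 (le_refl _)) hal.le
      have h8 := div_nonneg (h.y0 k t0 (le_refl _)) hbe.le
      have e1 : (th k).1 / P.al * x k t0 = (th k).1 * (x k t0 / P.al) := by ring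
      have e2 : (th k).2 / P.be * y k t0 = (th k).2 * (y k t0 / P.be) := by ring
      rw [e1, e2]
      unfold sm
      nlinarith
    have h3 : 0 < m0 * sm P x y k t0 := mul_pos hm0 hk
    linarith
  set e0 := min e1 (Ew P th x y t0) with he0
  have he0' : 0 < e0 := lt_min he1' hE0
  have hE : ∀ t, t0 ≤ t → e0 ≤ Ew P th x y t := by
    refine h.Ew_stay hP hth hm0 hm he0' ?_ (min_le_right _ _)
    have h1 : (P.al + P.be) / m0 * e0 ≤ (P.al + P.be) / m0 * e1 :=
      mul_le_mul_of_nonneg_left (min_le_left _ _) (by positivity)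
    have h2 : (P.al + P.be) / m0 * e1 = m0 / 2 := by
      rw [he1]
      field_simp
    linarith
  obtain ⟨r, ν, T, hr, hν, hT, hcore⟩ := core2 hP hth hK he0'
  have hc := hcore t0 x y h hX hY hE
  have hsk : ∀ t, t0 ≤ t → 0 < sm P x y k t := fun t ht => h.sm_pos hP hX hY hk ht
  -- the other species vanish
  have hsm : ∀ j, j ≠ k → Tendsto (sm P x y j) atTop (𝓝 0) := by
    intro j hjk
    rcases (h.sm0 hP (le_refl t0) j).eq_or_lt with h0 | h0
    · have : ∀ t, t0 ≤ t → sm P x y j t = 0 := by
        intro t ht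
        obtain ⟨h1, h2⟩ := h.sm_zero hP h0.symm ht
        unfold sm
        rw [h1, h2]
        simp
      refine tendsto_const_nhds.congr' ?_
      filter_upwards [eventually_ge_atTop t0] with t ht using (this t ht).symm
    · have hkj : k < j := by
        rcases lt_trichotomy j k with h1 | h1 | h1
        · exact absurd (hmin j h1) h0.ne'
        · exact absurd h1 hjk
        · exact h1
      have hsj : ∀ t, t0 ≤ t → 0 < sm P x y j t := fun t ht => h.sm_pos hP hX hY h0 ht
      have h' := h.mono (show t0 ≤ t0 + T by linarith)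
      set f := fun t => Real.log (sm P x y k t) - Real.log (sm P x y j t) with hf
      have hlin : ∀ t, t0 + T ≤ t → f (t0 + T) + ν * (t - (t0 + T)) ≤ f t := by
        refine linear_lower (f := f) (f' := fun t => (P.a - tX x t + gg P x y t * pr P x y k t) -
          (P.a - tX x t + gg P x y t * pr P x y j t)) ?_ ?_ ?_
        · exact ((h'.smc k).log fun t ht =>
            (hsk t (by
              have : t0 + T ≤ t := ht
              linarith)).ne').sub ((h'.smc j).log fun t ht =>
            (hsj t (by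
              have : t0 + T ≤ t := ht
              linarith)).ne')
        · intro t ht
          exact (h'.logsm hP ht k (hsk t (by linarith))).sub
            (h'.logsm hP ht j (hsj t (by linarith)))
        · intro t ht
          have := (hc t ht).2 k j hkj hk h0
          have e : (P.a - tX x t + gg P x y t * pr P x y k t) -
            (P.a - tX x t + gg P x y t * pr P x y j t) =
            gg P x y t * (pr P x y k t - pr P x y j t) := by ring
          rw [e]
          exact this
      set B := K * (1 / P.al + 1 / P.be) with hB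
      have hB0 : 0 ≤ B := by positivity
      have hlim : Tendsto (fun t : ℝ => B * Real.exp (- (f (t0 + T) + ν * (t - (t0 + T)))))
          atTop (𝓝 (B * 0)) := by
        apply Tendsto.const_mul
        apply Real.tendsto_exp_atBot.comp
        apply tendsto_neg_atTop_atBot.comp
        apply tendsto_atTop_add_const_left
        apply Tendsto.const_mul_atTop hν
        exact tendsto_atTop_add_const_right _ _ tendsto_id
      rw [mul_zero] at hlim
      refine tendsto_of_tendsto_of_tendsto_of_le_of_le' tendsto_const_nhds hlim ?_ ?_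
      · filter_upwards [eventually_ge_atTop t0] with t ht using h.sm0 hP ht j
      · filter_upwards [eventually_ge_atTop (t0 + T)] with t ht
        have ht0 : t0 ≤ t := by linarith
        have h1 := hlin t ht
        have h2 : sm P x y j t = sm P x y k t * Real.exp (- f t) := by
          rw [hf]
          simp only [neg_sub]
          rw [Real.exp_sub, Real.exp_log (hsj t ht0), Real.exp_log (hsk t ht0)]
          field_simp [(hsk t ht0).ne']
        rw [h2]
        apply mul_le_mul (h.sm_bound hP ht0 (hX t ht0) (hY t ht0) k) _ (Real.exp_pos _).le hB0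
        apply Real.exp_le_exp.mpr
        linarith
  have hxy : ∀ j, j ≠ k → Tendsto (x j) atTop (𝓝 0) ∧ Tendsto (y j) atTop (𝓝 0) := by
    intro j hj
    refine xy_of_sm hP ?_ ?_ (hsm j hj)
    · filter_upwards [eventually_ge_atTop t0] with t ht using h.x0 j t ht
    · filter_upwards [eventually_ge_atTop t0] with t ht using h.y0 j t ht
  refine ⟨?_, hxy⟩
  have hlow := sm_low (th := th) hP hm1 hm he0' (l := atTop) k
    (by filter_upwards [eventually_ge_atTop t0] with t ht using fun i => h.x0 i t ht)
    (by filter_upwards [eventually_ge_atTop t0] with t ht using fun i => h.y0 i t ht)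
    (by filter_upwards [eventually_ge_atTop t0] with t ht using hE t ht) hsm
  obtain ⟨t1, ht1⟩ := hlow.exists_forall_of_atTop
  set t2 := max (t0 + T) t1 with ht2
  have h2a : t0 + T ≤ t2 := le_max_left _ _
  have h2b : t1 ≤ t2 := le_max_right _ _
  set c := min P.al P.be * r * (e0 / (2 * m1)) with hcc
  have hmn : 0 < min P.al P.be := lt_min hal hbe
  have hcpos : 0 < c := by positivity
  have hxyc : ∀ t, t2 ≤ t → c ≤ x k t ∧ c ≤ y k t := by
    intro t ht
    have ht0 : t0 ≤ t := by linarith
    obtain ⟨h1, h2⟩ := (hc t (h2a.trans ht)).1 k hk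
    have h3 := ht1 t (h2b.trans ht)
    have h4 := hsk t ht0
    have h5 : 0 < e0 / (2 * m1) := by positivity
    constructor
    · rw [x_eq hP h4.ne', hcc]
      apply mul_le_mul (mul_le_mul (min_le_left _ _) h2 hr.le hal.le) h3 h5.le
      exact mul_nonneg hal.le (hr.le.trans h2)
    · rw [y_eq hP h4.ne', hcc]
      apply mul_le_mul (mul_le_mul (min_le_right _ _) h1 hr.le hbe.le) h3 h5.le
      exact mul_nonneg hbe.le (hr.le.trans h1)
  exact (h.mono (show t0 ≤ t2 by linarith)).conv_top hP hth k hcpos
    (fun t ht => (hxyc t ht).1) (fun t ht => (hxyc t ht).2)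
    (rest_tendsto fun j hj => (hxy j hj).1) (rest_tendsto fun j hj => (hxy j hj).2)

/-- A solution starting at a single-species equilibrium stays there. -/
theorem Flow.stay_eq (h : Flow P t0 x y) (hP : P.Ok) {th : Fin N → ℝ × ℝ} (hth : P.IsEq th)
    (k : Fin N) (hx : ∀ j, j ≠ k → ∀ t, t0 ≤ t → x j t = 0)
    (hy : ∀ j, j ≠ k → ∀ t, t0 ≤ t → y j t = 0) (hx0 : x k t0 = (th k).1)
    (hy0 : y k t0 = (th k).2) : ∀ t, t0 ≤ t → x k t = (th k).1 ∧ y k t = (th k).2 := by
  obtain ⟨K, hK, hX, hY⟩ := h.bounded hP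
  have hp := hth.p1 k
  have hq := hth.p2 k
  have hxpos : ∀ t, t0 ≤ t → 0 < x k t := by
    intro t ht
    have h1 := exp_lower (k := - (P.al * P.d k) + P.a - K) (h.xc k) (fun s hs => h.xd k s hs)
      (fun s hs => by
        have h2 := h.x0 k s hs
        have h3 := h.y0 k s hs
        have h4 : ∑ j, x j s ≤ K := hX s hs
        have h5 : 0 ≤ P.al * P.d k * y k s :=
          mul_nonneg (mul_nonneg hP.al.le (hP.d k).le) h3
        nlinarith) t ht
    rw [hx0] at h1
    exact lt_of_lt_of_le (mul_pos hp (Real.exp_pos _)) h1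
  have hypos : ∀ t, t0 ≤ t → 0 < y k t := by
    intro t ht
    have h1 := exp_lower (k := - (P.be * P.d k) + P.b - K) (h.yc k) (fun s hs => h.yd k s hs)
      (fun s hs => by
        have h2 := h.x0 k s hs
        have h3 := h.y0 k s hs
        have h4 : ∑ j, y j s ≤ K := hY s hs
        have h5 : 0 ≤ P.be * P.d k * x k s :=
          mul_nonneg (mul_nonneg hP.be.le (hP.d k).le) h2
        nlinarith) t ht
    rw [hy0] at h1
    exact lt_of_lt_of_le (mul_pos hq (Real.exp_pos _)) h1
  have hX1 : ∀ t, t0 ≤ t → tX x t = x k t := fun t ht =>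
    Finset.sum_eq_single k (fun j _ hj => hx j hj t ht) (fun h => absurd (Finset.mem_univ k) h)
  have hY1 : ∀ t, t0 ≤ t → tX y t = y k t := fun t ht =>
    Finset.sum_eq_single k (fun j _ hj => hy j hj t ht) (fun h => absurd (Finset.mem_univ k) h)
  have hex : ∀ s : ℝ, ∃ v' : ℝ, t0 ≤ s → (HasDerivWithinAt (Ly P th x y k) v' (Ici s) s ∧
      v' ≤ 0 * Ly P th x y k s) := by
    intro s
    by_cases hs : t0 ≤ s
    · obtain ⟨v, hv, hle⟩ := h.Ly_deriv hP hth hs k (lt_min (hxpos s hs) (hypos s hs))
        (min_le_left _ _) (min_le_right _ _)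
      refine ⟨v, fun _ => ⟨hv, ?_⟩⟩
      have h1 : Fo P th x y k s = 0 := by
        unfold Fo
        rw [hX1 s hs, hY1 s hs]
        simp
      have h2 := Ly_nonneg hP hth k (hxpos s hs) (hypos s hs)
      have h3 : 0 < min (x k s) (y k s) := lt_min (hxpos s hs) (hypos s hs)
      rw [h1] at hle
      have h4 : 0 ≤ min (x k s) (y k s) / 2 * Ly P th x y k s := by positivity
      linarith
    · exact ⟨0, fun h => absurd h hs⟩
  choose v' hv' using hex
  intro t ht
  have h1 := exp_upper (f := Ly P th x y k) (f' := v') (k := 0) (h.Lyc hth k hxpos hypos)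
    (fun s hs => (hv' s hs).1) (fun s hs => (hv' s hs).2) t ht
  have h2 : Ly P th x y k t0 = 0 := by
    unfold Ly
    rw [hx0, hy0, div_self hp.ne', div_self hq.ne']
    simp
  rw [h2, zero_mul] at h1
  have h3 := sqrt_le_entropy (hxpos t ht) hp
  have h4 := sqrt_le_entropy (hypos t ht) hq
  have h8 : 0 < (th k).1 / P.al := div_pos hp hP.al
  have h9 : 0 < (th k).2 / P.be := div_pos hq hP.be
  have h5 : (th k).1 / P.al * (Real.sqrt (x k t) - Real.sqrt (th k).1) ^ 2 +
      (th k).2 / P.be * (Real.sqrt (y k t) - Real.sqrt (th k).2) ^ 2 ≤ 0 :=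
    (add_le_add (mul_le_mul_of_nonneg_left h3 h8.le) (mul_le_mul_of_nonneg_left h4 h9.le)).trans h1
  have h6 : (Real.sqrt (x k t) - Real.sqrt (th k).1) ^ 2 = 0 := by
    have e1 := sq_nonneg (Real.sqrt (x k t) - Real.sqrt (th k).1)
    have e2 := mul_nonneg h9.le (sq_nonneg (Real.sqrt (y k t) - Real.sqrt (th k).2))
    nlinarith
  have h7 : (Real.sqrt (y k t) - Real.sqrt (th k).2) ^ 2 = 0 := by
    have e1 := sq_nonneg (Real.sqrt (y k t) - Real.sqrt (th k).2)
    have e2 := mul_nonneg h8.le (sq_nonneg (Real.sqrt (x k t) - Real.sqrt (th k).1))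
    nlinarith
  have h10 : Real.sqrt (x k t) = Real.sqrt (th k).1 := by
    have := pow_eq_zero_iff (two_ne_zero) |>.mp h6
    linarith
  have h11 : Real.sqrt (y k t) = Real.sqrt (th k).2 := by
    have := pow_eq_zero_iff (two_ne_zero) |>.mp h7
    linarith
  exact ⟨(Real.sqrt_inj (hxpos t ht).le hp.le).mp h10, (Real.sqrt_inj (hypos t ht).le hq.le).mp h11⟩

/-- Either an entire solution tends to `0` in the past or its weighted mass is bounded below. -/
theorem Entire.dichotomy (h : Entire P x y) (hP : P.Ok) {th : Fin N → ℝ × ℝ} (hth : P.IsEq th) :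
    (∃ e0 : ℝ, 0 < e0 ∧ ∀ t, e0 ≤ Ew P th x y t) ∨
      ∀ j, Tendsto (x j) atBot (𝓝 0) ∧ Tendsto (y j) atBot (𝓝 0) := by
  obtain ⟨m0, m1, hm0, hm1, hm⟩ := exists_thbounds hth
  have hal := hP.al
  have hbe := hP.be
  set e1 := m0 ^ 2 / (2 * (P.al + P.be)) with he1
  have he1' : 0 < e1 := by positivity
  have he2 : (P.al + P.be) / m0 * e1 = m0 / 2 := by
    rw [he1]
    field_simp
  by_cases hall : ∀ t, e1 ≤ Ew P th x y t
  · exact Or.inl ⟨e1, he1', hall⟩
  right
  push Not at hall
  obtain ⟨t1, ht1⟩ := hall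
  have hlt : ∀ t, t ≤ t1 → Ew P th x y t < e1 := by
    intro t ht
    by_contra hcon
    push Not at hcon
    have := (h t).Ew_stay hP hth hm0 hm he1' he2.le hcon t1 ht
    linarith
  have hnn : ∀ t, 0 ≤ Ew P th x y t := fun t => (h t).Ew_nonneg hP hth (le_refl t)
  have hEt : Tendsto (Ew P th x y) atBot (𝓝 0) := by
    have hlim : Tendsto (fun t : ℝ => Ew P th x y t1 * Real.exp (- (m0 / 2 * (t1 - t)))) atBot
        (𝓝 (Ew P th x y t1 * 0)) := by
      apply Tendsto.const_mul
      apply Real.tendsto_exp_atBot.comp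
      apply tendsto_neg_atTop_atBot.comp
      apply Tendsto.const_mul_atTop (by positivity)
      exact tendsto_atTop_add_const_left _ _ tendsto_neg_atBot_atTop
    rw [mul_zero] at hlim
    refine tendsto_of_tendsto_of_tendsto_of_le_of_le' tendsto_const_nhds hlim
      (Eventually.of_forall hnn) ?_
    filter_upwards [eventually_le_atBot t1] with t ht
    have h1 := exp_lower_Icc (f := Ew P th x y) (k := m0 / 2) ht
      (((h t).Ewc th).mono Icc_subset_Ici_self)
      (fun s hs => (h t).Ewd hP hth hs.1) (fun s hs => ?_)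
    · calc Ew P th x y t = Ew P th x y t * Real.exp (m0 / 2 * (t1 - t)) *
            Real.exp (- (m0 / 2 * (t1 - t))) := by
            rw [mul_assoc, ← Real.exp_add]
            simp
        _ ≤ Ew P th x y t1 * Real.exp (- (m0 / 2 * (t1 - t))) :=
            mul_le_mul_of_nonneg_right h1 (Real.exp_pos _).le
    · have h2 := (h t).Ew_growth hP hm0 hm hs.1
      have h3 := hlt s hs.2.le
      have h4 := hnn s
      have h5 : (P.al + P.be) / m0 * Ew P th x y s ≤ m0 / 2 := by
        rw [← he2]
        exact mul_le_mul_of_nonneg_left h3.le (by positivity)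
      have h6 : m0 / 2 * Ew P th x y s ≤
          (m0 - (P.al + P.be) / m0 * Ew P th x y s) * Ew P th x y s :=
        mul_le_mul_of_nonneg_right (by linarith) h4
      linarith
  intro j
  have hM : Tendsto (fun t => (P.al + P.be) / m0 * Ew P th x y t) atBot (𝓝 0) := by
    simpa using hEt.const_mul ((P.al + P.be) / m0)
  constructor
  · refine tendsto_of_tendsto_of_tendsto_of_le_of_le tendsto_const_nhds hM
      (fun t => (h t).x0 j t (le_refl t)) (fun t => ?_)
    exact ((h t).x_le (le_refl t) j).trans ((h t).Ew_compare hP hm0 hm (le_refl t)).1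
  · refine tendsto_of_tendsto_of_tendsto_of_le_of_le tendsto_const_nhds hM
      (fun t => (h t).y0 j t (le_refl t)) (fun t => ?_)
    exact ((h t).y_le (le_refl t) j).trans ((h t).Ew_compare hP hm0 hm (le_refl t)).2.1

/-- A species present at one time of a bounded entire solution is present at all times. -/
theorem Entire.present (h : Entire P x y) (hP : P.Ok) {K : ℝ}
    (hX : ∀ t, tX x t ≤ K) (hY : ∀ t, tX y t ≤ K) {i : Fin N} {t : ℝ}
    (hi : 0 < sm P x y i t) (s : ℝ) : 0 < sm P x y i s := by
  rcases le_total t s with hts | hts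
  · exact (h t).sm_pos hP (fun r _ => hX r) (fun r _ => hY r) hi hts
  · rcases ((h s).sm0 hP (le_refl s) i).eq_or_lt with h0 | h0
    · obtain ⟨h1, h2⟩ := (h s).sm_zero hP h0.symm hts
      unfold sm at hi
      rw [h1, h2] at hi
      simp at hi
    · exact h0

/-- **Backward limits.** -/
theorem Entire.backward (h : Entire P x y) (hP : P.Ok) {th : Fin N → ℝ × ℝ} (hth : P.IsEq th)
    {K e0 : ℝ} (hK : 0 ≤ K) (hX : ∀ t, tX x t ≤ K) (hY : ∀ t, tX y t ≤ K)
    (he0 : 0 < e0) (hE : ∀ t, e0 ≤ Ew P th x y t)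
    (k : Fin N) (hk : 0 < sm P x y k 0) (hmax : ∀ j, k < j → sm P x y j 0 = 0) :
    ((Tendsto (x k) atBot (𝓝 (th k).1) ∧ Tendsto (y k) atBot (𝓝 (th k).2)) ∧
      ∀ j, j ≠ k → Tendsto (x j) atBot (𝓝 0) ∧ Tendsto (y j) atBot (𝓝 0)) ∧
    ((∀ j, j ≠ k → sm P x y j 0 = 0) → ∀ t, x k t = (th k).1 ∧ y k t = (th k).2) := by
  obtain ⟨m0, m1, hm0, hm1, hm⟩ := exists_thbounds hth
  have hal := hP.al
  have hbe := hP.be
  obtain ⟨r, ν, T, hr, hν, hT, hcore⟩ := core2 hP hth hK he0
  have hc : ∀ t, (∀ i, 0 < sm P x y i 0 → r ≤ pr P x y i t ∧ r ≤ 1 - pr P x y i t) ∧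
        ∀ i j, i < j → 0 < sm P x y i 0 → 0 < sm P x y j 0 →
          ν ≤ gg P x y t * (pr P x y i t - pr P x y j t) := by
    intro t
    have h1 := hcore (t - T) x y (h _) (fun s _ => hX s) (fun s _ => hY s) (fun s _ => hE s) t
      (by linarith)
    exact ⟨fun i hi => h1.1 i (h.present hP hX hY hi _), fun i j hij hi hj =>
      h1.2 i j hij (h.present hP hX hY hi _) (h.present hP hX hY hj _)⟩
  have hsk : ∀ t, 0 < sm P x y k t := fun t => h.present hP hX hY hk t
  have hsm0 : ∀ j t, 0 ≤ sm P x y j t := fun j t => (h t).sm0 hP (le_refl t) j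
  have habs : ∀ j, sm P x y j 0 = 0 → ∀ t, sm P x y j t = 0 := by
    intro j hj t
    rcases (hsm0 j t).eq_or_lt with h0 | h0
    · exact h0.symm
    · exact absurd hj (h.present hP hX hY h0 0).ne'
  have hsm : ∀ j, j ≠ k → Tendsto (sm P x y j) atBot (𝓝 0) := by
    intro j hjk
    rcases (hsm0 j 0).eq_or_lt with h0 | h0
    · have : sm P x y j = fun _ => 0 := funext (habs j h0.symm)
      rw [this]
      exact tendsto_const_nhds
    · have hkj : j < k := by
        rcases lt_trichotomy k j with h1 | h1 | h1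
        · exact absurd (hmax j h1) h0.ne'
        · exact absurd h1.symm hjk
        · exact h1
      have hsj : ∀ t, 0 < sm P x y j t := fun t => h.present hP hX hY h0 t
      set f := fun t => Real.log (sm P x y j t) - Real.log (sm P x y k t) with hf
      have hlin : ∀ t, t ≤ 0 → f t + ν * (0 - t) ≤ f 0 := by
        intro t ht
        refine linear_lower (f := f) (f' := fun t => (P.a - tX x t + gg P x y t * pr P x y j t) -
          (P.a - tX x t + gg P x y t * pr P x y k t)) (t0 := t) ?_ ?_ ?_ 0 ht
        · exact (((h t).smc j).log fun s _ => (hsj s).ne').sub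
            (((h t).smc k).log fun s _ => (hsk s).ne')
        · intro s hs
          exact ((h t).logsm hP hs j (hsj s)).sub ((h t).logsm hP hs k (hsk s))
        · intro s hs
          have := (hc s).2 j k hkj h0 hk
          have e : (P.a - tX x s + gg P x y s * pr P x y j s) -
            (P.a - tX x s + gg P x y s * pr P x y k s) =
            gg P x y s * (pr P x y j s - pr P x y k s) := by ring
          rw [e]
          exact this
      set B := K * (1 / P.al + 1 / P.be) with hB
      have hB0 : 0 ≤ B := by positivity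
      have hlim : Tendsto (fun t : ℝ => B * Real.exp (f 0 + ν * t)) atBot (𝓝 (B * 0)) := by
        apply Tendsto.const_mul
        apply Real.tendsto_exp_atBot.comp
        apply tendsto_atBot_add_const_left
        exact Tendsto.const_mul_atBot hν tendsto_id
      rw [mul_zero] at hlim
      refine tendsto_of_tendsto_of_tendsto_of_le_of_le' tendsto_const_nhds hlim
        (Eventually.of_forall (hsm0 j)) ?_
      filter_upwards [eventually_le_atBot (0:ℝ)] with t ht
      have h1 := hlin t ht
      have h2 : sm P x y j t = sm P x y k t * Real.exp (f t) := by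
        rw [hf]
        simp only
        rw [Real.exp_sub, Real.exp_log (hsj t), Real.exp_log (hsk t)]
        field_simp [(hsk t).ne']
      rw [h2]
      apply mul_le_mul ((h t).sm_bound hP (le_refl t) (hX t) (hY t) k) _ (Real.exp_pos _).le hB0
      apply Real.exp_le_exp.mpr
      linarith
  have hxy : ∀ j, j ≠ k → Tendsto (x j) atBot (𝓝 0) ∧ Tendsto (y j) atBot (𝓝 0) := by
    intro j hj
    exact xy_of_sm hP (Eventually.of_forall fun t => (h t).x0 j t (le_refl t))
      (Eventually.of_forall fun t => (h t).y0 j t (le_refl t)) (hsm j hj)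
  have hlow := sm_low (th := th) hP hm1 hm he0 (l := atBot) k
    (Eventually.of_forall fun t i => (h t).x0 i t (le_refl t))
    (Eventually.of_forall fun t i => (h t).y0 i t (le_refl t))
    (Eventually.of_forall hE) hsm
  rw [eventually_atBot] at hlow
  obtain ⟨t1, ht1⟩ := hlow
  have hxK : ∀ t, x k t ≤ K := fun t => ((h t).x_le (le_refl t) k).trans (hX t)
  have hyK : ∀ t, y k t ≤ K := fun t => ((h t).y_le (le_refl t) k).trans (hY t)
  have hmn : 0 < min P.al P.be := lt_min hal hbe
  have hgen : ∀ q : ℝ, 0 < q → ∀ t, q ≤ sm P x y k t →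
      min P.al P.be * r * q ≤ x k t ∧ min P.al P.be * r * q ≤ y k t := by
    intro q hq t hqt
    obtain ⟨h1, h2⟩ := (hc t).1 k hk
    have h4 := hsk t
    constructor
    · rw [x_eq hP h4.ne']
      apply mul_le_mul (mul_le_mul (min_le_left _ _) h2 hr.le hal.le) hqt hq.le
      exact mul_nonneg hal.le (hr.le.trans h2)
    · rw [y_eq hP h4.ne']
      apply mul_le_mul (mul_le_mul (min_le_right _ _) h1 hr.le hbe.le) hqt hq.le
      exact mul_nonneg hbe.le (hr.le.trans h1)
  have hx0 : ∀ t, 0 < x k t ∧ 0 < y k t := by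
    intro t
    obtain ⟨h1, h2⟩ := hgen _ (hsk t) t (le_refl _)
    have h3 : 0 < min P.al P.be * r * sm P x y k t := mul_pos (mul_pos hmn hr) (hsk t)
    exact ⟨lt_of_lt_of_le h3 h1, lt_of_lt_of_le h3 h2⟩
  have hq0 : 0 < e0 / (2 * m1) := by positivity
  refine ⟨⟨?_, hxy⟩, ?_⟩
  · exact h.conv_bot hP hth k (c := min P.al P.be * r * (e0 / (2 * m1))) (K := K) (t1 := t1)
      (by positivity) (fun t => (hx0 t).1) (fun t => (hx0 t).2)
      (fun t ht => (hgen _ hq0 t (ht1 t ht)).1) (fun t ht => (hgen _ hq0 t (ht1 t ht)).2)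
      hxK hyK (rest_tendsto fun j hj => (hxy j hj).1) (rest_tendsto fun j hj => (hxy j hj).2)
  · intro hsingle
    have hz : ∀ j, j ≠ k → ∀ t, x j t = 0 ∧ y j t = 0 := by
      intro j hj t
      exact (h t).sm_zero hP (habs j (hsingle j hj) t) (le_refl t)
    have hX1 : ∀ t, tX x t = x k t := by
      intro t
      exact Finset.sum_eq_single k (fun j _ hj => (hz j hj t).1)
        (fun h => absurd (Finset.mem_univ k) h)
    have hY1 : ∀ t, tX y t = y k t := by
      intro t
      exact Finset.sum_eq_single k (fun j _ hj => (hz j hj t).2)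
        (fun h => absurd (Finset.mem_univ k) h)
    have hlow' : ∀ t, e0 / (2 * m1) ≤ sm P x y k t := by
      intro t
      have := sm_low (th := th) hP hm1 hm he0 (l := pure t) (x := x) (y := y) k
        (by simpa using fun i => (h t).x0 i t (le_refl t))
        (by simpa using fun i => (h t).y0 i t (le_refl t))
        (by simpa using hE t) (fun j hj => by
          have : sm P x y j t = 0 := habs j (hsingle j hj) t
          have h1 : sm P x y j = fun _ => 0 := funext (habs j (hsingle j hj))
          rw [h1]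
          exact tendsto_const_nhds)
      simpa using this
    exact fun t => h.const hP hth k (c := min P.al P.be * r * (e0 / (2 * m1))) (K := K)
      (by positivity) (fun t => (hgen _ hq0 t (hlow' t)).1) (fun t => (hgen _ hq0 t (hlow' t)).2)
      hxK hyK hX1 hY1 t

end

end Pool.Agent.Lib.MP_d8ef8f_an.TwoPatch
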