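import Pool.Agent.Lib.MP_d8ef8f_an.TwoPatch.Flow

/-!
# Uniform bounds for the fraction of a species living in the second patch, and permanence
-/

set_option autoImplicit false

open Set Filter Topology Finset

namespace Pool.Agent.Lib.MP_d8ef8f_an.TwoPatch

noncomputable section

variable {N : ℕ} {P : Par N} {t0 : ℝ} {x y : Fin N → ℝ → ℝ}

theorem exists_dbounds (hP : P.Ok) :
    ∃ d0 d1 : ℝ, 0 < d0 ∧ 0 < d1 ∧ ∀ i, d0 ≤ P.d i ∧ P.d i ≤ d1 := by
  rcases Nat.eq_zero_or_pos N with h | h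
  · subst h
    exact ⟨1, 1, one_pos, one_pos, fun i => i.elim0⟩
  · have : Nonempty (Fin N) := ⟨⟨0, h⟩⟩
    obtain ⟨i0, hi0⟩ := Finite.exists_min P.d
    obtain ⟨i1, hi1⟩ := Finite.exists_max P.d
    exact ⟨P.d i0, P.d i1, hP.d i0, hP.d i1, fun i => ⟨hi0 i, hi1 i⟩⟩

theorem exists_gap (hP : P.Ok) :
    ∃ δ : ℝ, 0 < δ ∧ ∀ i j : Fin N, i < j → δ ≤ P.d j - P.d i := by
  by_cases h : ∃ p : Fin N × Fin N, p.1 < p.2
  · have : Nonempty {p : Fin N × Fin N // p.1 < p.2} := ⟨⟨h.choose, h.choose_spec⟩⟩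
    obtain ⟨q, hq⟩ := Finite.exists_min fun p : {p : Fin N × Fin N // p.1 < p.2} =>
      P.d p.1.2 - P.d p.1.1
    refine ⟨P.d q.1.2 - P.d q.1.1, sub_pos.mpr (hP.mono q.2), fun i j hij => hq ⟨(i, j), hij⟩⟩
  · push Not at h
    exact ⟨1, one_pos, fun i j hij => absurd hij (not_lt.mpr (h (i, j)))⟩

theorem Flow.gg_abs (h : Flow P t0 x y) (hP : P.Ok) {K t : ℝ} (ht : t0 ≤ t)
    (hX : tX x t ≤ K) (hY : tX y t ≤ K) : |gg P x y t| ≤ (P.b - P.a) + K := by
  have h1 := h.tX0 ht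
  have h2 := h.tY0 ht
  have h3 := hP.ab
  unfold gg
  rw [abs_le]
  constructor <;> linarith

theorem Flow.sm_lower (h : Flow P t0 x y) (hP : P.Ok) {K : ℝ}
    (hX : ∀ t, t0 ≤ t → tX x t ≤ K) (hY : ∀ t, t0 ≤ t → tX y t ≤ K) (i : Fin N) :
    ∀ t, t0 ≤ t → sm P x y i t0 * Real.exp ((P.a - K) * (t - t0)) ≤ sm P x y i t := by
  refine exp_lower (h.smc i) (fun t ht => h.smd hP ht i) fun t ht => ?_
  have h1 := div_nonneg (h.x0 i t ht) hP.al.le
  have h2 := div_nonneg (h.y0 i t ht) hP.be.le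
  have h3 := hX t ht
  have h4 := hY t ht
  have h5 := hP.ab
  have e : sm P x y i t = x i t / P.al + y i t / P.be := rfl
  rw [e]
  nlinarith

theorem Flow.sm_upper (h : Flow P t0 x y) (hP : P.Ok) (i : Fin N) :
    ∀ t, t0 ≤ t → sm P x y i t ≤ sm P x y i t0 * Real.exp (P.b * (t - t0)) := by
  refine exp_upper (h.smc i) (fun t ht => h.smd hP ht i) fun t ht => ?_
  have h1 := div_nonneg (h.x0 i t ht) hP.al.le
  have h2 := div_nonneg (h.y0 i t ht) hP.be.le
  have h3 := h.tX0 ht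
  have h4 := h.tY0 ht
  have h5 := hP.ab
  have e : sm P x y i t = x i t / P.al + y i t / P.be := rfl
  rw [e]
  nlinarith

theorem Flow.sm_pos (h : Flow P t0 x y) (hP : P.Ok) {K : ℝ}
    (hX : ∀ t, t0 ≤ t → tX x t ≤ K) (hY : ∀ t, t0 ≤ t → tX y t ≤ K) {i : Fin N}
    (hi : 0 < sm P x y i t0) {t : ℝ} (ht : t0 ≤ t) : 0 < sm P x y i t :=
  lt_of_lt_of_le (mul_pos hi (Real.exp_pos _)) (h.sm_lower hP hX hY i t ht)

theorem Flow.sm_zero (h : Flow P t0 x y) (hP : P.Ok) {i : Fin N}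
    (hi : sm P x y i t0 = 0) {t : ℝ} (ht : t0 ≤ t) : x i t = 0 ∧ y i t = 0 := by
  have h1 := h.sm_upper hP i t ht
  rw [hi, zero_mul] at h1
  have h2 := div_nonneg (h.x0 i t ht) hP.al.le
  have h3 := div_nonneg (h.y0 i t ht) hP.be.le
  have e : sm P x y i t = x i t / P.al + y i t / P.be := rfl
  rw [e] at h1
  have h4 : x i t / P.al = 0 := by linarith
  have h5 : y i t / P.be = 0 := by linarith
  rw [div_eq_zero_iff] at h4 h5
  exact ⟨h4.resolve_right hP.al.ne', h5.resolve_right hP.be.ne'⟩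

theorem Flow.pr_nonneg (h : Flow P t0 x y) (hP : P.Ok) {t : ℝ} (ht : t0 ≤ t) (i : Fin N) :
    0 ≤ pr P x y i t :=
  div_nonneg (div_nonneg (h.y0 i t ht) hP.be.le) (h.sm0 hP ht i)

theorem Flow.pr_le_one (h : Flow P t0 x y) (hP : P.Ok) {t : ℝ} (ht : t0 ≤ t) (i : Fin N) :
    pr P x y i t ≤ 1 := by
  unfold pr
  apply div_le_one_of_le₀ _ (h.sm0 hP ht i)
  have := div_nonneg (h.x0 i t ht) hP.al.le
  unfold sm
  linarith

/-- After a uniform time the fractions are uniformly inside `(0, 1)`. -/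
theorem pr_uniform (hP : P.Ok) {K : ℝ} (hK : 0 ≤ K) :
    ∃ r T : ℝ, 0 < r ∧ r ≤ 1 / 2 ∧ 0 ≤ T ∧ ∀ (t0 : ℝ) (x y : Fin N → ℝ → ℝ), Flow P t0 x y →
      (∀ t, t0 ≤ t → tX x t ≤ K) → (∀ t, t0 ≤ t → tX y t ≤ K) →
      ∀ i, 0 < sm P x y i t0 → ∀ t, t0 + T ≤ t → r ≤ pr P x y i t ∧ r ≤ 1 - pr P x y i t := by
  obtain ⟨d0, d1, hd0, hd1, hd⟩ := exists_dbounds hP
  have hal := hP.al
  have hbe := hP.be
  set mn := min P.al P.be with hmn
  have hmn0 : 0 < mn := lt_min hal hbe
  have hmn1 : mn ≤ P.al := min_le_left _ _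
  have hmn2 : mn ≤ P.be := min_le_right _ _
  set G := (P.b - P.a) + K with hG
  have hG0 : 0 < G := by
    have := hP.ab
    linarith
  set Q := G + (P.al + P.be) * d1 with hQ
  have hQ0 : 0 < Q := by positivity
  set r := min (1 / 2) (d0 * mn / (2 * Q)) with hr
  have hr0 : 0 < r := lt_min (by norm_num) (by positivity)
  have hr1 : r ≤ 1 / 2 := min_le_left _ _
  have hr2 : Q * r ≤ d0 * mn / 2 := by
    have h1 : r ≤ d0 * mn / (2 * Q) := min_le_right _ _
    calc Q * r ≤ Q * (d0 * mn / (2 * Q)) := mul_le_mul_of_nonneg_left h1 hQ0.le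
      _ = d0 * mn / 2 := by field_simp
  have hη : 0 < d0 * mn / 2 := by positivity
  refine ⟨r, r / (d0 * mn / 2), hr0, hr1, by positivity, ?_⟩
  intro t0 x y h hX hY i hi t ht
  have hs : ∀ s, t0 ≤ s → 0 < sm P x y i s := fun s hs => h.sm_pos hP hX hY hi hs
  have hgg : ∀ s, t0 ≤ s → |gg P x y s| ≤ G := fun s hs => h.gg_abs hP hs (hX s hs) (hY s hs)
  constructor
  · refine reach_uniform (A := r) hη (h.prc hs) (fun s hs' => h.prd hP hs' i (hs s hs'))
      (fun s hs' hle => ?_) (by simpa using h.pr_nonneg hP (le_refl t0) i) hr0.le t ht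
    have h1 := h.pr_nonneg hP hs' i
    have h2 := h.pr_le_one hP hs' i
    have h3 := abs_le.mp (hgg s hs')
    have h4 := (hd i).1
    have h5 := (hd i).2
    set p := pr P x y i s
    set g := gg P x y s
    have e1 : - (G * r) ≤ g * p * (1 - p) := by
      have : -G * (p * (1 - p)) ≤ g * (p * (1 - p)) :=
        mul_le_mul_of_nonneg_right h3.1 (mul_nonneg h1 (by linarith))
      have : p * (1 - p) ≤ r := by nlinarith
      nlinarith
    have e2 : d0 * mn - (P.al + P.be) * d1 * r ≤ P.d i * (P.al - (P.al + P.be) * p) := by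
      have h6 : d0 * mn ≤ P.d i * P.al := by
        apply mul_le_mul h4 hmn1 hmn0.le (by linarith)
      have h7 : P.d i * ((P.al + P.be) * p) ≤ d1 * ((P.al + P.be) * r) := by
        apply mul_le_mul h5 _ (by positivity) (by linarith)
        apply mul_le_mul_of_nonneg_left hle (by linarith)
      nlinarith
    have e3 : Q * r = G * r + (P.al + P.be) * d1 * r := by rw [hQ]; ring
    linarith
  · have hd1' : ∀ s, t0 ≤ s → HasDerivWithinAt (fun s => 1 - pr P x y i s)
        (- (gg P x y s * pr P x y i s * (1 - pr P x y i s) +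
          P.d i * (P.al - (P.al + P.be) * pr P x y i s))) (Ici s) s := by
      intro s hs'
      simpa using (h.prd hP hs' i (hs s hs')).const_sub 1
    refine reach_uniform (f := fun s => 1 - pr P x y i s) (A := r) hη
      (continuousOn_const.sub (h.prc hs)) hd1'
      (fun s hs' hle => ?_) (by simpa using h.pr_le_one hP (le_refl t0) i) hr0.le t ht
    have h1 := h.pr_nonneg hP hs' i
    have h2 := h.pr_le_one hP hs' i
    have h3 := abs_le.mp (hgg s hs')
    have h4 := (hd i).1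
    have h5 := (hd i).2
    set p := pr P x y i s
    set g := gg P x y s
    have e1 : g * p * (1 - p) ≤ G * r := by
      have : g * (p * (1 - p)) ≤ G * (p * (1 - p)) :=
        mul_le_mul_of_nonneg_right h3.2 (mul_nonneg h1 (by linarith))
      have : p * (1 - p) ≤ r := by nlinarith
      nlinarith
    have e2 : d0 * mn - (P.al + P.be) * d1 * r ≤ - (P.d i * (P.al - (P.al + P.be) * p)) := by
      have h6 : d0 * mn ≤ P.d i * P.be := by
        apply mul_le_mul h4 hmn2 hmn0.le (by linarith)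
      have h7 : P.d i * ((P.al + P.be) * (1 - p)) ≤ d1 * ((P.al + P.be) * r) := by
        apply mul_le_mul h5 _ (mul_nonneg (by linarith) (by linarith)) (by linarith)
        apply mul_le_mul_of_nonneg_left hle (by linarith)
      nlinarith
    have e3 : Q * r = G * r + (P.al + P.be) * d1 * r := by rw [hQ]; ring
    linarith

/-- The same in terms of ratios, for all species (present or absent). -/
theorem ratio_uniform (hP : P.Ok) {K : ℝ} (hK : 0 ≤ K) :
    ∃ r T : ℝ, 0 < r ∧ r ≤ 1 ∧ 0 ≤ T ∧ ∀ (t0 : ℝ) (x y : Fin N → ℝ → ℝ), Flow P t0 x y →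
      (∀ t, t0 ≤ t → tX x t ≤ K) → (∀ t, t0 ≤ t → tX y t ≤ K) →
      ∀ i t, t0 + T ≤ t → r * x i t ≤ y i t ∧ r * y i t ≤ x i t := by
  obtain ⟨r, T, hr0, hr1, hT, h⟩ := pr_uniform hP hK
  have hal := hP.al
  have hbe := hP.be
  refine ⟨min 1 (min (r * (P.be / P.al)) (r * (P.al / P.be))), T, ?_, min_le_left _ _, hT, ?_⟩
  · exact lt_min one_pos (lt_min (by positivity) (by positivity))
  intro t0 x y hf hX hY i t ht
  have ht0 : t0 ≤ t := by linarith
  rcases (hf.sm0 hP (le_refl t0) i).eq_or_lt with h0 | h0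
  · obtain ⟨hx, hy⟩ := hf.sm_zero hP h0.symm ht0
    rw [hx, hy]
    simp
  · obtain ⟨h1, h2⟩ := h t0 x y hf hX hY i h0 t ht
    have hs := hf.sm_pos hP hX hY h0 ht0
    have hx := x_eq hP hs.ne'
    have hy := y_eq hP hs.ne'
    have hx0 := hf.x0 i t ht0
    have hy0 := hf.y0 i t ht0
    have hp0 := hf.pr_nonneg hP ht0 i
    have hp1 := hf.pr_le_one hP ht0 i
    set m := min 1 (min (r * (P.be / P.al)) (r * (P.al / P.be)))
    have hm1 : m ≤ r * (P.be / P.al) := (min_le_right _ _).trans (min_le_left _ _)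
    have hm2 : m ≤ r * (P.al / P.be) := (min_le_right _ _).trans (min_le_right _ _)
    set s := sm P x y i t
    set p := pr P x y i t
    constructor
    · calc m * x i t ≤ r * (P.be / P.al) * x i t := mul_le_mul_of_nonneg_right hm1 hx0
        _ = r * (P.be / P.al) * (P.al * (1 - p) * s) := by rw [← hx]
        _ = P.be * r * (1 - p) * s := by field_simp
        _ ≤ P.be * p * s := by
          have : r * (1 - p) ≤ p := by nlinarith
          have h3 : P.be * (r * (1 - p)) * s ≤ P.be * p * s :=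
            mul_le_mul_of_nonneg_right (mul_le_mul_of_nonneg_left this hbe.le) hs.le
          linarith
        _ = y i t := hy.symm
    · calc m * y i t ≤ r * (P.al / P.be) * y i t := mul_le_mul_of_nonneg_right hm2 hy0
        _ = r * (P.al / P.be) * (P.be * p * s) := by rw [← hy]
        _ = P.al * r * p * s := by field_simp
        _ ≤ P.al * (1 - p) * s := by
          have : r * p ≤ 1 - p := by nlinarith
          have h3 : P.al * (r * p) * s ≤ P.al * (1 - p) * s :=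
            mul_le_mul_of_nonneg_right (mul_le_mul_of_nonneg_left this hal.le) hs.le
          linarith
        _ = x i t := hx.symm

/-- Positive equilibria of the single-species systems. -/
structure Par.IsEq (P : Par N) (th : Fin N → ℝ × ℝ) : Prop where
  p1 : ∀ i, 0 < (th i).1
  p2 : ∀ i, 0 < (th i).2
  e1 : ∀ i, P.al * P.d i * ((th i).2 - (th i).1) + (th i).1 * (P.a - (th i).1) = 0
  e2 : ∀ i, P.be * P.d i * ((th i).1 - (th i).2) + (th i).2 * (P.b - (th i).2) = 0

/-- The weighted total mass. -/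
def Ew (P : Par N) (th : Fin N → ℝ × ℝ) (x y : Fin N → ℝ → ℝ) (t : ℝ) : ℝ :=
  ∑ i, ((th i).1 / P.al * x i t + (th i).2 / P.be * y i t)

theorem Flow.Ewc (h : Flow P t0 x y) (th : Fin N → ℝ × ℝ) :
    ContinuousOn (Ew P th x y) (Ici t0) := by
  unfold Ew
  exact continuousOn_finsetSum _ fun i _ =>
    (continuousOn_const.mul (h.xc i)).add (continuousOn_const.mul (h.yc i))

theorem Flow.Ewd (h : Flow P t0 x y) (hP : P.Ok) {th : Fin N → ℝ × ℝ} (hth : P.IsEq th)
    {t : ℝ} (ht : t0 ≤ t) :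
    HasDerivWithinAt (Ew P th x y)
      (∑ i, ((th i).1 / P.al * x i t * ((th i).1 - tX x t) +
        (th i).2 / P.be * y i t * ((th i).2 - tX y t))) (Ici t) t := by
  have h1 := HasDerivWithinAt.fun_sum (u := Finset.univ) fun i (_ : i ∈ Finset.univ) =>
    ((h.xd i t ht).const_mul ((th i).1 / P.al)).add ((h.yd i t ht).const_mul ((th i).2 / P.be))
  refine h1.congr_deriv ?_
  apply Finset.sum_congr rfl
  intro i _
  have hal := hP.al.ne'
  have hbe := hP.be.ne'
  have e1 := hth.e1 i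
  have e2 := hth.e2 i
  have e3 : ∑ j, x j t = tX x t := rfl
  have e4 : ∑ j, y j t = tX y t := rfl
  rw [e3, e4]
  have e5 : (th i).1 * P.a = (th i).1 * (th i).1 - P.al * P.d i * ((th i).2 - (th i).1) := by
    linarith
  have e6 : (th i).2 * P.b = (th i).2 * (th i).2 - P.be * P.d i * ((th i).1 - (th i).2) := by
    linarith
  have e7 : (th i).1 / P.al * (P.al * P.d i * (y i t - x i t) + x i t * (P.a - tX x t)) =
      P.d i * (th i).1 * (y i t - x i t) + x i t / P.al * ((th i).1 * P.a - (th i).1 * tX x t) := by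
    field_simp
  have e8 : (th i).2 / P.be * (P.be * P.d i * (x i t - y i t) + y i t * (P.b - tX y t)) =
      P.d i * (th i).2 * (x i t - y i t) + y i t / P.be * ((th i).2 * P.b - (th i).2 * tX y t) := by
    field_simp
  rw [e7, e8, e5, e6]
  field_simp
  ring

theorem exists_thbounds {th : Fin N → ℝ × ℝ} (hth : P.IsEq th) :
    ∃ m0 m1 : ℝ, 0 < m0 ∧ 0 < m1 ∧ ∀ i, m0 ≤ (th i).1 ∧ m0 ≤ (th i).2 ∧
      (th i).1 ≤ m1 ∧ (th i).2 ≤ m1 := by
  rcases Nat.eq_zero_or_pos N with h | h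
  · subst h
    exact ⟨1, 1, one_pos, one_pos, fun i => i.elim0⟩
  · have : Nonempty (Fin N) := ⟨⟨0, h⟩⟩
    obtain ⟨i0, hi0⟩ := Finite.exists_min fun i => min (th i).1 (th i).2
    obtain ⟨i1, hi1⟩ := Finite.exists_max fun i => max (th i).1 (th i).2
    refine ⟨min (th i0).1 (th i0).2, max (th i1).1 (th i1).2, lt_min (hth.p1 i0) (hth.p2 i0),
      lt_of_lt_of_le (hth.p1 i1) (le_max_left _ _), fun i => ⟨?_, ?_, ?_, ?_⟩⟩
    · exact (hi0 i).trans (min_le_left _ _)
    · exact (hi0 i).trans (min_le_right _ _)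
    · exact (le_max_left _ _).trans (hi1 i)
    · exact (le_max_right _ _).trans (hi1 i)

/-- Comparison of the weighted mass with the totals. -/
theorem Flow.Ew_compare (h : Flow P t0 x y) (hP : P.Ok) {th : Fin N → ℝ × ℝ}
    {m0 m1 : ℝ} (hm0 : 0 < m0)
    (hm : ∀ i, m0 ≤ (th i).1 ∧ m0 ≤ (th i).2 ∧ (th i).1 ≤ m1 ∧ (th i).2 ≤ m1)
    {t : ℝ} (ht : t0 ≤ t) :
    tX x t ≤ (P.al + P.be) / m0 * Ew P th x y t ∧ tX y t ≤ (P.al + P.be) / m0 * Ew P th x y t ∧
      Ew P th x y t ≤ m1 * (1 / P.al + 1 / P.be) * (tX x t + tX y t) := by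
  have hal := hP.al
  have hbe := hP.be
  refine ⟨?_, ?_, ?_⟩
  · unfold Ew tX
    rw [Finset.mul_sum]
    apply Finset.sum_le_sum
    intro i _
    have h1 := h.x0 i t ht
    have h2 := h.y0 i t ht
    obtain ⟨h3, h4, -, -⟩ := hm i
    have h5 : 0 ≤ (P.al + P.be) / m0 * ((th i).2 / P.be * y i t) := by
      have : 0 ≤ (th i).2 := hm0.le.trans h4
      positivity
    have h6 : x i t ≤ (P.al + P.be) / m0 * ((th i).1 / P.al * x i t) := by
      have h7 : 1 ≤ (P.al + P.be) / m0 * ((th i).1 / P.al) := by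
        rw [div_mul_div_comm, le_div_iff₀ (by positivity)]
        nlinarith
      calc x i t = 1 * x i t := (one_mul _).symm
        _ ≤ (P.al + P.be) / m0 * ((th i).1 / P.al) * x i t := mul_le_mul_of_nonneg_right h7 h1
        _ = _ := by ring
    linarith [mul_add ((P.al + P.be) / m0) ((th i).1 / P.al * x i t) ((th i).2 / P.be * y i t)]
  · unfold Ew tX
    rw [Finset.mul_sum]
    apply Finset.sum_le_sum
    intro i _
    have h1 := h.x0 i t ht
    have h2 := h.y0 i t ht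
    obtain ⟨h3, h4, -, -⟩ := hm i
    have h5 : 0 ≤ (P.al + P.be) / m0 * ((th i).1 / P.al * x i t) := by
      have : 0 ≤ (th i).1 := hm0.le.trans h3
      positivity
    have h6 : y i t ≤ (P.al + P.be) / m0 * ((th i).2 / P.be * y i t) := by
      have h7 : 1 ≤ (P.al + P.be) / m0 * ((th i).2 / P.be) := by
        rw [div_mul_div_comm, le_div_iff₀ (by positivity)]
        nlinarith
      calc y i t = 1 * y i t := (one_mul _).symm
        _ ≤ (P.al + P.be) / m0 * ((th i).2 / P.be) * y i t := mul_le_mul_of_nonneg_right h7 h2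
        _ = _ := by ring
    linarith [mul_add ((P.al + P.be) / m0) ((th i).1 / P.al * x i t) ((th i).2 / P.be * y i t)]
  · unfold Ew tX
    rw [← Finset.sum_add_distrib, Finset.mul_sum]
    apply Finset.sum_le_sum
    intro i _
    have h1 := h.x0 i t ht
    have h2 := h.y0 i t ht
    obtain ⟨h3, h4, h5, h6⟩ := hm i
    have hm1 : 0 ≤ m1 := hm0.le.trans (h3.trans h5)
    have e1 : (th i).1 / P.al ≤ m1 * (1 / P.al + 1 / P.be) := by
      have h7 : (th i).1 / P.al ≤ m1 / P.al := div_le_div_of_nonneg_right h5 hal.le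
      have h8 : 0 ≤ m1 / P.be := by positivity
      have h9 : m1 * (1 / P.al + 1 / P.be) = m1 / P.al + m1 / P.be := by ring
      linarith
    have e2 : (th i).2 / P.be ≤ m1 * (1 / P.al + 1 / P.be) := by
      have h7 : (th i).2 / P.be ≤ m1 / P.be := div_le_div_of_nonneg_right h6 hbe.le
      have h8 : 0 ≤ m1 / P.al := by positivity
      have h9 : m1 * (1 / P.al + 1 / P.be) = m1 / P.al + m1 / P.be := by ring
      linarith
    calc (th i).1 / P.al * x i t + (th i).2 / P.be * y i t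
        ≤ m1 * (1 / P.al + 1 / P.be) * x i t + m1 * (1 / P.al + 1 / P.be) * y i t :=
          add_le_add (mul_le_mul_of_nonneg_right e1 h1) (mul_le_mul_of_nonneg_right e2 h2)
      _ = _ := by ring

/-- Growth of the weighted mass at low densities. -/
theorem Flow.Ew_growth (h : Flow P t0 x y) (hP : P.Ok) {th : Fin N → ℝ × ℝ}
    {m0 m1 : ℝ} (hm0 : 0 < m0)
    (hm : ∀ i, m0 ≤ (th i).1 ∧ m0 ≤ (th i).2 ∧ (th i).1 ≤ m1 ∧ (th i).2 ≤ m1)
    {t : ℝ} (ht : t0 ≤ t) :
    (m0 - (P.al + P.be) / m0 * Ew P th x y t) * Ew P th x y t ≤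
      ∑ i, ((th i).1 / P.al * x i t * ((th i).1 - tX x t) +
        (th i).2 / P.be * y i t * ((th i).2 - tX y t)) := by
  obtain ⟨h1, h2, -⟩ := h.Ew_compare hP hm0 hm ht
  have e : (m0 - (P.al + P.be) / m0 * Ew P th x y t) * Ew P th x y t =
      ∑ i, (m0 - (P.al + P.be) / m0 * Ew P th x y t) *
        ((th i).1 / P.al * x i t + (th i).2 / P.be * y i t) := by
    rw [← Finset.mul_sum]
    rfl
  rw [e]
  apply Finset.sum_le_sum
  intro i _
  obtain ⟨h3, h4, -, -⟩ := hm i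
  have h5 : 0 ≤ (th i).1 / P.al * x i t :=
    mul_nonneg (div_nonneg (hm0.le.trans h3) hP.al.le) (h.x0 i t ht)
  have h6 : 0 ≤ (th i).2 / P.be * y i t :=
    mul_nonneg (div_nonneg (hm0.le.trans h4) hP.be.le) (h.y0 i t ht)
  nlinarith

theorem Flow.Ew_nonneg (h : Flow P t0 x y) (hP : P.Ok) {th : Fin N → ℝ × ℝ} (hth : P.IsEq th)
    {t : ℝ} (ht : t0 ≤ t) : 0 ≤ Ew P th x y t :=
  Finset.sum_nonneg fun i _ => add_nonneg
    (mul_nonneg (div_nonneg (hth.p1 i).le hP.al.le) (h.x0 i t ht))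
    (mul_nonneg (div_nonneg (hth.p2 i).le hP.be.le) (h.y0 i t ht))

/-- Permanence: the weighted mass never falls below a small level. -/
theorem Flow.Ew_stay (h : Flow P t0 x y) (hP : P.Ok) {th : Fin N → ℝ × ℝ} (hth : P.IsEq th)
    {m0 m1 : ℝ} (hm0 : 0 < m0)
    (hm : ∀ i, m0 ≤ (th i).1 ∧ m0 ≤ (th i).2 ∧ (th i).1 ≤ m1 ∧ (th i).2 ≤ m1)
    {e0 : ℝ} (he0 : 0 < e0) (he1 : (P.al + P.be) / m0 * e0 ≤ m0 / 2)
    (hE : e0 ≤ Ew P th x y t0) : ∀ t, t0 ≤ t → e0 ≤ Ew P th x y t := by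
  refine stay (h.Ewc th) (fun t ht => h.Ewd hP hth ht) hE fun t ht he => ?_
  have h1 := h.Ew_growth hP hm0 hm ht
  rw [he] at h1
  have : 0 < (m0 - (P.al + P.be) / m0 * e0) * e0 := mul_pos (by linarith) he0
  linarith

end

end Pool.Agent.Lib.MP_d8ef8f_an.TwoPatch
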